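import Mathlib
import Pool.Agent.H65.Perc.HalfDefs

set_option autoImplicit false

/-! Definitions for the bulk one-arm event (MP_fe58d8_pr). -/

open MeasureTheory Filter Topology

namespace Pool.Agent.H63.Bulk

open Pool.Agent.H65.Perc (PConf planeMeasure)

/-- the graph of open edges of `ℤ²` -/
def planeGraph (ω : PConf) : SimpleGraph (ℤ × ℤ) :=
  SimpleGraph.fromRel (fun u v =>
    (v = (u.1 + 1, u.2) ∧ ω (u, true) = true) ∨ (v = (u.1, u.2 + 1) ∧ ω (u, false) = true))

/-- the origin is connected to sup-norm distance `r` -/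
def OneArm (r : ℕ) (ω : PConf) : Prop :=
  ∃ v : ℤ × ℤ, ((r : ℤ) ≤ |v.1| ∨ (r : ℤ) ≤ |v.2|) ∧ (planeGraph ω).Reachable (0, 0) v

/-- Percolation configurations on `ℤ²` which are periodic with period `(n, -n)`: `ω (k, a, d)` is
the state (`true` = open) of the edges which start at the vertices `(x, y)` with `x + y = k`,
`x ≡ a mod n`, in direction `d` (`true`: the edge to `(x+1, y)`; `false`: the edge to `(x, y+1)`). -/
abbrev BConf (n : ℕ) := ℤ × ZMod n × Bool → Bool

/-- the graph of open edges -/
def bulkGraph (n : ℕ) (ω : BConf n) : SimpleGraph (ℤ × ℤ) :=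
  SimpleGraph.fromRel (fun u v =>
    (v = (u.1 + 1, u.2) ∧ ω (u.1 + u.2, (u.1 : ZMod n), true) = true) ∨
     (v = (u.1, u.2 + 1) ∧ ω (u.1 + u.2, (u.1 : ZMod n), false) = true))

/-- the open cluster of the origin winds around the bi-infinite cylinder -/
def BWinds (n : ℕ) (ω : BConf n) : Prop :=
  ∃ m : ℤ, m ≠ 0 ∧ (bulkGraph n ω).Reachable (0, 0) (m * n, -(m * n))

/-- all the edges are open independently with probability 1/2 -/
noncomputable def bulkMeasure (n : ℕ) : Measure (BConf n) :=
  Measure.infinitePi (fun _ => (PMF.uniformOfFintype Bool).toMeasure)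

end Pool.Agent.H63.Bulk
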