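import Mathlib
import Pool.Agent.H63.Bulk.Defs
import Pool.Agent.H65.Perc.HalfEmbed

set_option autoImplicit false

/-! The winding probability on the cylinder is at most the one-arm probability of the plane. -/

open MeasureTheory Filter Topology

namespace Pool.Agent.H63.Bulk

open Pool.Agent.H65.Perc (PConf planeMeasure infinitePi_map_comp_injective
  measurableSet_reachable)

instance (n : ℕ) : IsProbabilityMeasure (bulkMeasure n) := by
  unfold bulkMeasure; infer_instance

instance : IsProbabilityMeasure planeMeasure := by unfold planeMeasure; infer_instance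

theorem measurableSet_bulkGraph_adj (n : ℕ) (u v : ℤ × ℤ) :
    MeasurableSet {ω : BConf n | (bulkGraph n ω).Adj u v} := by
  have key : ∀ (c : Prop) (e : ℤ × ZMod n × Bool), MeasurableSet {ω : BConf n | c ∧ ω e = true} := by
    intro c e
    apply MeasurableSet.inter (MeasurableSet.const c)
    exact measurableSet_eq_fun (measurable_pi_apply e) measurable_const
  simp only [bulkGraph, SimpleGraph.fromRel_adj]
  apply MeasurableSet.inter (MeasurableSet.const _)
  apply MeasurableSet.union
  · exact MeasurableSet.union (key _ _) (key _ _)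
  · exact MeasurableSet.union (key _ _) (key _ _)

theorem measurableSet_bwinds (n : ℕ) : MeasurableSet {ω : BConf n | BWinds n ω} := by
  have : {ω : BConf n | BWinds n ω} = ⋃ m : ℤ, ({_ω | m ≠ 0} ∩
      {ω | (bulkGraph n ω).Reachable (0, 0) (m * n, -(m * n))}) := by
    ext ω
    simp [BWinds]
  rw [this]
  exact MeasurableSet.iUnion (fun m => (MeasurableSet.const _).inter
    (measurableSet_reachable _ (fun u v => measurableSet_bulkGraph_adj n u v) _ _))

theorem measurableSet_oneArm (r : ℕ) : MeasurableSet {ω : PConf | OneArm r ω} := by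
  have hadj : ∀ u v : ℤ × ℤ, MeasurableSet {ω : PConf | (planeGraph ω).Adj u v} := by
    intro u v
    have key : ∀ (c : Prop) (e : (ℤ × ℤ) × Bool), MeasurableSet {ω : PConf | c ∧ ω e = true} := by
      intro c e
      apply MeasurableSet.inter (MeasurableSet.const c)
      exact measurableSet_eq_fun (measurable_pi_apply e) measurable_const
    simp only [planeGraph, SimpleGraph.fromRel_adj]
    apply MeasurableSet.inter (MeasurableSet.const _)
    apply MeasurableSet.union
    · exact MeasurableSet.union (key _ _) (key _ _)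
    · exact MeasurableSet.union (key _ _) (key _ _)
  have : {ω : PConf | OneArm r ω} = ⋃ v : ℤ × ℤ, ({_ω | (r : ℤ) ≤ |v.1| ∨ (r : ℤ) ≤ |v.2|} ∩
      {ω | (planeGraph ω).Reachable (0, 0) v}) := by
    ext ω
    simp [OneArm]
  rw [this]
  exact MeasurableSet.iUnion (fun v => (MeasurableSet.const _).inter
    (measurableSet_reachable _ hadj _ _))

/-- the representative of a class of edges whose first coordinate lies in `[-r, n - r)` -/
def liftB (n : ℕ) (r : ℕ) (e : ℤ × ZMod n × Bool) : (ℤ × ℤ) × Bool :=
  let x : ℤ := (((e.2.1 + (r : ZMod n)).val : ℕ) : ℤ) - r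
  ((x, e.1 - x), e.2.2)

theorem liftB_injective (n : ℕ) [NeZero n] (r : ℕ) : Function.Injective (liftB n r) := by
  rintro ⟨k, a, d⟩ ⟨k', a', d'⟩ h
  simp only [liftB, Prod.mk.injEq] at h
  obtain ⟨⟨h1, h2⟩, h3⟩ := h
  have e1 : (a + (r : ZMod n)).val = (a' + (r : ZMod n)).val := by omega
  have e2 : a + (r : ZMod n) = a' + (r : ZMod n) := ZMod.val_injective n e1
  have e3 : a = a' := add_right_cancel e2
  have e4 : k = k' := by omega
  rw [e3, e4, h3]

theorem liftB_class (n : ℕ) [NeZero n] (r : ℕ) (u : ℤ × ℤ) (d : Bool)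
    (h1 : -(r : ℤ) ≤ u.1) (h2 : u.1 < n - r) :
    liftB n r (u.1 + u.2, (u.1 : ZMod n), d) = (u, d) := by
  have e1 : ((u.1 : ZMod n) + (r : ZMod n)) = ((u.1 + r : ℤ) : ZMod n) := by push_cast; rfl
  have e2 : ((((u.1 : ZMod n) + (r : ZMod n)).val : ℕ) : ℤ) = u.1 + r := by
    rw [e1, ZMod.val_intCast]
    exact Int.emod_eq_of_lt (by omega) (by omega)
  simp only [liftB, e2]
  ext <;> simp

/-- deterministic part -/
theorem oneArm_of_bwinds (n r : ℕ) (hr : 2 * r < n) (ω : PConf)
    (h : BWinds n (fun e => ω (liftB n r e))) : OneArm r ω := by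
  have : NeZero n := ⟨by omega⟩
  obtain ⟨m, hm, hreach⟩ := h
  have adj : ∀ v w : ℤ × ℤ, |v.1| < r → |v.2| < r →
      (bulkGraph n (fun e => ω (liftB n r e))).Adj v w → (planeGraph ω).Adj v w := by
    intro v w hv1 hv2 hvw
    rw [abs_lt] at hv1 hv2
    simp only [bulkGraph, planeGraph, SimpleGraph.fromRel_adj] at hvw ⊢
    refine ⟨hvw.1, ?_⟩
    rcases hvw.2 with h | h
    · left
      rw [liftB_class n r v true (by omega) (by omega),
        liftB_class n r v false (by omega) (by omega)] at h
      exact h
    · right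
      have hw : -(r : ℤ) ≤ w.1 ∧ w.1 < n - r := by
        rcases h with ⟨h, _⟩ | ⟨h, _⟩
        · have := congrArg Prod.fst h
          simp only at this
          constructor <;> omega
        · have := congrArg Prod.fst h
          simp only at this
          constructor <;> omega
      rw [liftB_class n r w true hw.1 hw.2, liftB_class n r w false hw.1 hw.2] at h
      exact h
  have key : ∀ w : ℤ × ℤ, (bulkGraph n (fun e => ω (liftB n r e))).Reachable (0, 0) w →
      (planeGraph ω).Reachable (0, 0) w ∨ OneArm r ω := by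
    intro w hw
    rw [SimpleGraph.reachable_iff_reflTransGen] at hw
    induction hw with
    | refl => left; exact SimpleGraph.Reachable.refl _
    | @tail v w _ hvw ih =>
      rcases ih with ih | ih
      · by_cases hv : (r : ℤ) ≤ |v.1| ∨ (r : ℤ) ≤ |v.2|
        · right
          exact ⟨v, hv, ih⟩
        · push Not at hv
          left
          exact ih.trans (SimpleGraph.Adj.reachable (adj v w hv.1 hv.2 hvw))
      · right; exact ih
  rcases key _ hreach with h | h
  · refine ⟨_, Or.inl ?_, h⟩
    rw [abs_mul]
    have h1 : (1 : ℤ) ≤ |m| := Int.one_le_abs hm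
    have h2 : |(n : ℤ)| = n := abs_of_nonneg (by positivity)
    rw [h2]
    nlinarith
  · exact h

/-- upper bound -/
theorem bwinds_le_oneArm (n r : ℕ) (hr : 2 * r < n) :
    ((bulkMeasure n) {ω | BWinds n ω}).toReal ≤ (planeMeasure {ω | OneArm r ω}).toReal := by
  have : NeZero n := ⟨by omega⟩
  have hmeas : Measurable (fun (ω : PConf) (e : ℤ × ZMod n × Bool) => ω (liftB n r e)) := by fun_prop
  have e : bulkMeasure n = planeMeasure.map (fun (ω : PConf) (e : ℤ × ZMod n × Bool) =>
      ω (liftB n r e)) :=
    (infinitePi_map_comp_injective (PMF.uniformOfFintype Bool).toMeasure (liftB n r)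
      (liftB_injective n r)).symm
  apply ENNReal.toReal_mono (measure_ne_top _ _)
  rw [e, Measure.map_apply hmeas (measurableSet_bwinds n)]
  apply measure_mono
  intro ω hω
  exact oneArm_of_bwinds n r hr ω hω

end Pool.Agent.H63.Bulk
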