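import Mathlib
import Pool.Agent.H65.Perc.Link

set_option autoImplicit false

/-! Winding classes of gaps and closed loops: the combinatorial dictionary for two glued
half-cylinders. -/

namespace Pool.Agent.H63.Bulk

open Pool.Agent.H65.Perc

/-- the data of one half: a matching `τ` of the strands (positions `k : ℤ`) and a relation `R`
between gaps (the gap `k` is directly to the left of the strand `k`) -/
structure Half (L : ℤ) (τ : ℤ → ℤ) (R : ℤ → ℤ → Prop) : Prop where
  inv : ∀ k, τ (τ k) = k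
  ne : ∀ k, τ k ≠ k
  conn : ∀ k, R k (τ k + 1)
  pot : ∀ a, ∃ z : ℤ → ℤ, (∀ k k', R k k' → z k = z k') ∧
    ∀ k, z (k + 1) = z k + (if k = a then 1 else 0) - (if k = τ a then 1 else 0)
  shift : ∀ k k' m, R k k' → R (k + m * L) (k' + m * L)

/-- number of elements to the left of the gap `c`, modulo 2 -/
def par (S : Finset ℤ) (c : ℤ) : ZMod 2 := ∑ a ∈ S, if a < c then 1 else 0

theorem odd_iff_par (S : Finset ℤ) (c : ℤ) :
    Odd (S.filter (fun a => a < c)).card ↔ par S c = 1 := by
  unfold par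
  rw [Finset.sum_boole]
  rw [ZMod.natCast_eq_one_iff_odd]

theorem sum_inv {τ : ℤ → ℤ} (h1 : ∀ k, τ (τ k) = k) (h2 : ∀ k, τ k ≠ k) {S : Finset ℤ}
    (hS : ∀ k ∈ S, τ k ∈ S) (f : ℤ → ZMod 2) (hf : ∀ k ∈ S, f (τ k) = f k) :
    ∑ a ∈ S, f a = 0 := by
  refine Finset.sum_involution (fun a _ => τ a) ?_ ?_ ?_ ?_
  · intro a ha
    simp only [hf a ha]
    have : ∀ x : ZMod 2, x + x = 0 := by decide
    exact this _
  · intro a ha _
    exact h2 a
  · intro a ha
    exact hS a ha
  · intro a _
    exact h1 a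

theorem par_eq {τ : ℤ → ℤ} (h1 : ∀ k, τ (τ k) = k) (h2 : ∀ k, τ k ≠ k) {S : Finset ℤ}
    (hS : ∀ k ∈ S, τ k ∈ S) (c : ℤ) :
    par S c = ∑ a ∈ S, if (a < c ∧ c ≤ τ a) then 1 else 0 := by
  have h3 : ∑ a ∈ S, (if (a < c ∧ τ a < c) then (1 : ZMod 2) else 0) = 0 := by
    refine sum_inv h1 h2 hS _ ?_
    intro k _
    rw [h1]
    simp only [and_comm]
  have h4 : par S c = ∑ a ∈ S, (if (a < c ∧ τ a < c) then (1 : ZMod 2) else 0)
      + ∑ a ∈ S, (if (a < c ∧ c ≤ τ a) then (1 : ZMod 2) else 0) := by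
    unfold par
    rw [← Finset.sum_add_distrib]
    refine Finset.sum_congr rfl fun a _ => ?_
    by_cases h5 : a < c
    · by_cases h6 : τ a < c
      · rw [if_pos h5, if_pos ⟨h5, h6⟩, if_neg (fun h => absurd h.2 (not_le.2 h6)), add_zero]
      · rw [if_pos h5, if_neg (fun h => h6 h.2), if_pos ⟨h5, not_lt.1 h6⟩, zero_add]
    · rw [if_neg h5, if_neg (fun h => h5 h.1), if_neg (fun h => h5 h.1), add_zero]
  rw [h4, h3, zero_add]

theorem Half.par_eq {L : ℤ} {τ : ℤ → ℤ} {R : ℤ → ℤ → Prop} (H : Half L τ R) {S : Finset ℤ}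
    (hS : ∀ k ∈ S, τ k ∈ S) {k k' : ℤ} (h : R k k') : par S k = par S k' := by
  rw [Bulk.par_eq H.inv H.ne hS, Bulk.par_eq H.inv H.ne hS]
  refine Finset.sum_congr rfl fun a _ => ?_
  by_cases ha : a < τ a
  · have := Lk.sep ha (H.pot a) h
    simp only [this]
  · rw [if_neg (by omega), if_neg (by omega)]

theorem par_of_le {S : Finset ℤ} {c : ℤ} (h : ∀ a ∈ S, c ≤ a) : par S c = 0 := by
  unfold par
  refine Finset.sum_eq_zero fun a ha => ?_
  rw [if_neg (not_lt.2 (h a ha))]

theorem par_of_lt {τ : ℤ → ℤ} (h1 : ∀ k, τ (τ k) = k) (h2 : ∀ k, τ k ≠ k) {S : Finset ℤ}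
    (hS : ∀ k ∈ S, τ k ∈ S) {c : ℤ} (h : ∀ a ∈ S, a < c) : par S c = 0 := by
  unfold par
  rw [Finset.sum_congr rfl (fun a ha => if_pos (h a ha))]
  exact sum_inv h1 h2 hS _ (fun _ _ => rfl)

theorem par_map (S : Finset ℤ) (c t : ℤ) :
    par (S.map (addRightEmbedding t)) (c + t) = par S c := by
  unfold par
  rw [Finset.sum_map]
  refine Finset.sum_congr rfl fun a _ => ?_
  simp only [addRightEmbedding_apply, add_lt_add_iff_right]

/-- no closed loop surrounds the gap `c` -/
def NoLoop (τ τ' : ℤ → ℤ) (c : ℤ) : Prop :=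
  ∀ S : Finset ℤ, (∀ k ∈ S, τ k ∈ S) → (∀ k ∈ S, τ' k ∈ S) →
    ¬ Odd (S.filter (fun a => a < c)).card

/-- the gaps which are connected in the glued cylinder -/
def Glue (R R' : ℤ → ℤ → Prop) : ℤ → ℤ → Prop := Relation.EqvGen (fun a b => R a b ∨ R' a b)

theorem Glue.shift {L : ℤ} {τ τ' : ℤ → ℤ} {R R' : ℤ → ℤ → Prop} (H : Half L τ R)
    (H' : Half L τ' R') {k k' : ℤ} (h : Glue R R' k k') (m : ℤ) :
    Glue R R' (k + m * L) (k' + m * L) := by
  induction h with
  | rel a b h =>
    refine Relation.EqvGen.rel _ _ ?_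
    rcases h with h | h
    · exact Or.inl (H.shift _ _ _ h)
    · exact Or.inr (H'.shift _ _ _ h)
  | refl a => exact Relation.EqvGen.refl _
  | symm a b _ ih => exact ih.symm _ _
  | trans a b c _ _ ih1 ih2 => exact ih1.trans _ _ _ ih2

/-- **the dictionary** -/
theorem dict {L : ℤ} (hL : 0 < L) {τ τ' : ℤ → ℤ} {R R' : ℤ → ℤ → Prop} (H : Half L τ R)
    (H' : Half L τ' R') (c : ℤ) :
    (∃ m : ℤ, m ≠ 0 ∧ Glue R R' c (c + m * L)) ↔ NoLoop τ τ' c := by
  have hpar : ∀ S : Finset ℤ, (∀ k ∈ S, τ k ∈ S) → (∀ k ∈ S, τ' k ∈ S) → ∀ k k',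
      Glue R R' k k' → par S k = par S k' := by
    intro S hS hS' k k' h
    induction h with
    | rel a b h =>
      rcases h with h | h
      · exact H.par_eq hS h
      · exact H'.par_eq hS' h
    | refl a => rfl
    | symm a b _ ih => exact ih.symm
    | trans a b c _ _ ih1 ih2 => exact ih1.trans ih2
  constructor
  · rintro ⟨m, hm, hR⟩ S hS hS' hodd
    rw [odd_iff_par] at hodd
    -- reduce to m > 0
    obtain ⟨p, hp, hRp⟩ : ∃ p : ℤ, 0 < p ∧ Glue R R' c (c + p * L) := by
      rcases lt_or_gt_of_ne hm with h | h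
      · refine ⟨-m, by omega, ?_⟩
        have h1 := Glue.shift H H' hR (-m)
        have e : c + m * L + -m * L = c := by ring
        rw [e] at h1
        exact h1.symm _ _
      · exact ⟨m, h, hR⟩
    -- translates of the loop
    have key : ∀ t : ℕ, par S (c + t * (p * L)) = 1 := by
      intro t
      induction t with
      | zero => simpa using hodd
      | succ t ih =>
        have h1 := Glue.shift H H' hRp (t * p)
        have h2 := hpar S hS hS' _ _ h1
        have e1 : c + (t : ℤ) * p * L = c + t * (p * L) := by ring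
        have e2 : c + p * L + (t : ℤ) * p * L = c + ((t + 1 : ℕ) : ℤ) * (p * L) := by
          push_cast; ring
        rw [e1, e2] at h2
        rw [← h2]; exact ih
    obtain ⟨b, hb⟩ : ∃ b : ℤ, ∀ a ∈ S, a < b := by
      obtain ⟨b, hb⟩ := S.bddAbove
      exact ⟨b + 1, fun a ha => by have := hb ha; omega⟩
    have hpL : 0 < p * L := mul_pos hp hL
    have h0 : par S (c + ((b - c).toNat : ℤ) * (p * L)) = 0 := by
      refine par_of_lt H.inv H.ne hS ?_
      intro a ha
      have h1 := hb a ha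
      have h2 : ((b - c).toNat : ℤ) * 1 ≤ ((b - c).toNat : ℤ) * (p * L) :=
        mul_le_mul_of_nonneg_left (by omega) (by omega)
      omega
    rw [key] at h0
    exact absurd h0 (by decide)
  · intro hno
    by_contra hcon
    push Not at hcon
    set C : Set ℤ := {k | Glue R R' c k} with hC
    have hinj : Set.InjOn (fun k : ℤ => k % L) C := by
      intro k hk k' hk' he
      simp only at he
      have h1 := Int.emod_add_mul_ediv k L
      have h2 := Int.emod_add_mul_ediv k' L
      have h3 : k' = k + (k' / L - k / L) * L := by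
        rw [he] at h1
        linear_combination h1 - h2
      have h4 := Glue.shift H H' (show Glue R R' c k from hk) (k' / L - k / L)
      rw [← h3] at h4
      have h5 : Glue R R' c (c + (k' / L - k / L) * L) :=
        Relation.EqvGen.trans _ _ _ hk' (h4.symm _ _)
      by_cases h6 : k' / L - k / L = 0
      · rw [h6, zero_mul, add_zero] at h3
        exact h3.symm
      · exact absurd h5 (hcon _ h6)
    have hfin : C.Finite := by
      refine Set.Finite.of_finite_image ?_ hinj
      refine (Set.finite_Ico (0 : ℤ) L).subset ?_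
      rintro _ ⟨k, _, rfl⟩
      exact ⟨Int.emod_nonneg _ hL.ne', Int.emod_lt_of_pos _ hL⟩
    have hfinA : {k : ℤ | k ∈ C ∨ k + 1 ∈ C}.Finite := by
      refine Set.Finite.union hfin ?_
      exact Set.Finite.preimage (fun a _ b _ h => by simpa using h) hfin
    set S : Finset ℤ := hfinA.toFinset with hSdef
    have memS : ∀ k, k ∈ S ↔ (Glue R R' c k ∨ Glue R R' c (k + 1)) := by
      intro k
      rw [hSdef, Set.Finite.mem_toFinset]
      exact Iff.rfl
    have gl : ∀ {a b d}, Glue R R' a b → (R b d ∨ R' b d) → Glue R R' a d := by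
      intro a b d h1 h2
      exact h1.trans _ _ _ (Relation.EqvGen.rel _ _ h2)
    have gl' : ∀ {a b d}, Glue R R' a b → (R d b ∨ R' d b) → Glue R R' a d := by
      intro a b d h1 h2
      have h3 : Glue R R' d b := Relation.EqvGen.rel _ _ h2
      exact h1.trans _ _ _ (h3.symm _ _)
    have hS1 : ∀ k ∈ S, τ k ∈ S := by
      intro k hk
      rw [memS] at hk ⊢
      rcases hk with hk | hk
      · exact Or.inr (gl hk (Or.inl (H.conn k)))
      · left
        have := H.conn (τ k)
        rw [H.inv] at this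
        exact gl' hk (Or.inl this)
    have hS2 : ∀ k ∈ S, τ' k ∈ S := by
      intro k hk
      rw [memS] at hk ⊢
      rcases hk with hk | hk
      · exact Or.inr (gl hk (Or.inr (H'.conn k)))
      · left
        have := H'.conn (τ' k)
        rw [H'.inv] at this
        exact gl' hk (Or.inr this)
    -- the maximal element of the class
    have hCne : C.Nonempty := ⟨c, Relation.EqvGen.refl _⟩
    obtain ⟨b, hbC, hbmax⟩ : ∃ b ∈ C, ∀ k ∈ C, k ≤ b := by
      obtain ⟨b, hb⟩ := Set.exists_max_image C id hfin hCne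
      exact ⟨b, hb.1, hb.2⟩
    have hbS : b ∈ S := (memS b).2 (Or.inl hbC)
    have hSle : ∀ k ∈ S, k ≤ b := by
      intro k hk
      rcases (memS k).1 hk with h | h
      · exact hbmax k h
      · have := hbmax (k + 1) h
        omega
    apply hno S hS1 hS2
    rw [odd_iff_par, hpar S hS1 hS2 c b hbC]
    have h0 : ∑ a ∈ S, (1 : ZMod 2) = 0 := sum_inv H.inv H.ne hS1 _ (fun _ _ => rfl)
    have h1 : ∑ a ∈ S, (1 : ZMod 2) = par S b + ∑ a ∈ S, (if a = b then (1 : ZMod 2) else 0) := by
      unfold par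
      rw [← Finset.sum_add_distrib]
      refine Finset.sum_congr rfl fun a ha => ?_
      have := hSle a ha
      by_cases h : a < b
      · rw [if_pos h, if_neg (by omega), add_zero]
      · rw [if_neg h, if_pos (by omega), zero_add]
    rw [Finset.sum_ite_eq' S b (fun _ => (1 : ZMod 2)), if_pos hbS, h0] at h1
    have : ∀ x : ZMod 2, 0 = x + 1 → x = 1 := by decide
    exact this _ h1

end Pool.Agent.H63.Bulk
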