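import Mathlib
import Pool.Agent.H63.Bulk.Abs

set_option autoImplicit false

/-! The half-cylinder provides the data `Half`. -/

namespace Pool.Agent.H63.Bulk

open Pool.Agent.H65.Perc St

/-- the matching of the strands in the universal cover -/
def cov {L : ℕ} [NeZero L] (s : St (Lab L)) (k : ℤ) : ℤ :=
  match s.p (Sum.inl (modFin k)) with
  | Sum.inl j => (j : ℤ) + (k / L + s.g (Sum.inl (modFin k))) * L
  | Sum.inr _ => k

theorem cov_eq {L : ℕ} [NeZero L] {s : St (Lab L)} {k : ℤ} {j : Fin L}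
    (h : s.p (Sum.inl (modFin k)) = Sum.inl j) :
    cov s k = (j : ℤ) + (k / L + s.g (Sum.inl (modFin k))) * L := by
  unfold cov
  rw [h]

/-- the gaps connected in the half-cylinder with the rows `< M` -/
def RR {L : ℕ} [NeZero L] (M : ℕ) (ω : ℕ → Fin L → Bool) (k k' : ℤ) : Prop :=
  Relation.EqvGen (Lk.EA M ω) (0, k) (0, k')

theorem modFin_shift {L : ℕ} [NeZero L] (k m : ℤ) : (modFin (k + m * L) : Fin L) = modFin k := by
  have h := Lk.modFin_spec (L := L) k
  have e : k + m * L = ((modFin k : Fin L) : ℤ) + (k / L + m) * L := by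
    conv_lhs => rw [← h]
    ring
  rw [e, Lk.modFin_add]

theorem ea_shift {L : ℕ} [NeZero L] (hL : Even L) {M : ℕ} {ω : ℕ → Fin L → Bool} {a b : ℕ × ℤ}
    (h : Relation.EqvGen (Lk.EA M ω) a b) (m : ℤ) :
    Relation.EqvGen (Lk.EA M ω) (a.1, a.2 + m * L) (b.1, b.2 + m * L) := by
  induction h with
  | rel a b h =>
    refine Relation.EqvGen.rel _ _ ?_
    rcases h with ⟨r, hr, k, h⟩ | ⟨c, c', h1, h2, rfl, rfl⟩
    · refine Or.inl ⟨r, hr, k + m * L, ?_⟩
      rw [modFin_shift]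
      rcases h with ⟨h, rfl, rfl⟩ | ⟨h, rfl, rfl⟩
      · refine Or.inl ⟨h, rfl, ?_⟩
        simp only [Prod.mk.injEq, true_and]; ring
      · refine Or.inr ⟨h, rfl, ?_⟩
        simp only [Prod.mk.injEq, true_and]; ring
    · have hLe : (m * L) % 2 = 0 := by
        obtain ⟨k, hk⟩ := hL
        rw [hk]; push_cast
        have : m * ((k : ℤ) + k) = 2 * (m * k) := by ring
        omega
      exact Or.inr ⟨c + m * L, c' + m * L, by omega, by omega, rfl, rfl⟩
  | refl a => exact Relation.EqvGen.refl _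
  | symm a b _ ih => exact ih.symm _ _
  | trans a b c _ _ ih1 ih2 => exact ih1.trans _ _ _ ih2

theorem half_data (n : ℕ) [NeZero (2 * n)] (M : ℕ) (ω : ℕ → Fin (2 * n) → Bool) :
    Half ((2 * n : ℕ) : ℤ) (cov (runRows ω M (cap n M))) (RR M ω) := by
  have hn : 0 < 2 * n := Nat.pos_of_ne_zero (NeZero.ne _)
  have hLE : Even (2 * n) := even_two_mul n
  obtain ⟨hidle, H⟩ := Lk.run_main (M := M) (ω := ω) M le_rfl _ (Lk.cap_allIdle n M)
    (Lk.cap_inv n M ω)
  set s := runRows ω M (cap n M) with hs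
  have hinv := s.inv
  have hne := s.ne
  have hgs := s.gs
  -- strands are matched with strands
  have hstr : ∀ i : Fin (2 * n), ∃ j : Fin (2 * n), s.p (Sum.inl i) = Sum.inl j := by
    intro i
    rcases hp : s.p (Sum.inl i) with j | ⟨k, _ | _⟩
    · exact ⟨j, rfl⟩
    · exfalso
      have h1 := (hidle k).1
      have h2 : s.p (lx k) = Sum.inl i := by
        rw [show (lx k : Lab (2 * n)) = s.p (Sum.inl i) from hp.symm, hinv]
      rw [h1] at h2
      simp [ly] at h2
    · exfalso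
      have h1 := (hidle k).1
      have h2 : s.p (ly k) = Sum.inl i := by
        rw [show (ly k : Lab (2 * n)) = s.p (Sum.inl i) from hp.symm, hinv]
      rw [← h1, hinv] at h2
      simp [lx] at h2
  choose P hP using hstr
  have hPP : ∀ i, P (P i) = i := by
    intro i
    have h1 := hinv (Sum.inl i)
    rw [hP, hP] at h1
    exact Sum.inl_injective h1
  have hPne : ∀ i, P i ≠ i := by
    intro i h
    apply hne (Sum.inl i)
    rw [hP, h]
  have hPg : ∀ i, s.g (Sum.inl (P i)) = - s.g (Sum.inl i) := by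
    intro i
    rw [← hP, hgs]
  set τ : ℤ → ℤ := cov s with hτ
  have hτ0 : ∀ k, τ k = ((P (modFin k) : ℕ) : ℤ) +
    (k / (2 * n : ℕ) + s.g (Sum.inl (modFin k))) * (2 * n : ℕ) := fun k => cov_eq (hP _)
  have hτ1 : ∀ (i : Fin (2 * n)) (m : ℤ), τ (((i : ℕ) : ℤ) + m * (2 * n : ℕ)) =
      ((P i : ℕ) : ℤ) + (m + s.g (Sum.inl i)) * (2 * n : ℕ) := by
    intro i m
    rw [hτ0, Lk.modFin_add, Lk.div_add]
  have hk0 : ∀ k : ℤ, k = (((modFin k : Fin (2 * n)) : ℕ) : ℤ) + k / (2 * n : ℕ) * (2 * n : ℕ) :=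
    fun k => (Lk.modFin_spec k).symm
  have hmod_inj : ∀ (i j : Fin (2 * n)) (m m' : ℤ),
      ((i : ℕ) : ℤ) + m * (2 * n : ℕ) = ((j : ℕ) : ℤ) + m' * (2 * n : ℕ) → i = j ∧ m = m' := by
    intro i j m m' h
    constructor
    · rw [← Lk.modFin_add i m, h, Lk.modFin_add]
    · rw [← Lk.div_add i m, h, Lk.div_add]
  have hττ : ∀ k, τ (τ k) = k := by
    intro k
    rw [hτ0 k, hτ1, hPP, hPg]
    conv_rhs => rw [hk0 k]
    ring
  refine ⟨hττ, ?_, ?_, ?_, ?_⟩
  · intro k h
    rw [hτ0 k] at h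
    have h' := h.trans (hk0 k)
    exact hPne _ (hmod_inj _ _ _ _ h').1
  · intro k
    have h1 := Lk.eqvGen_es_ea hLE (H.conn (Sum.inl (modFin k)) ⟨_, rfl⟩ (k / (2 * n : ℕ)))
    rw [hP] at h1
    simp only [Lk.LfL, Lk.RfL, Lk.pr] at h1
    rw [← hk0 k] at h1
    have e : τ k + 1 = (((P (modFin k) : ℕ) + 1 : ℕ) : ℤ) +
        (k / (2 * n : ℕ) + s.g (Sum.inl (modFin k))) * (2 * n : ℕ) := by
      rw [hτ0 k]; push_cast; ring
    unfold RR
    rw [e]
    exact h1
  · intro a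
    obtain ⟨Z, hZ, hZ'⟩ := H.pot (fun l m => match l with
      | Sum.inl i => (if ((i : ℕ) : ℤ) + m * (2 * n : ℕ) = a then 1 else 0) -
          (if ((i : ℕ) : ℤ) + m * (2 * n : ℕ) = τ a then 1 else 0)
      | Sum.inr _ => 0) (by
        rintro (i | ⟨k, b⟩) m
        · rw [hP]
          simp only
          have e1 : ((P i : ℕ) : ℤ) + (m + s.g (Sum.inl i)) * (2 * n : ℕ) =
            τ (((i : ℕ) : ℤ) + m * (2 * n : ℕ)) := (hτ1 i m).symm
          rw [e1]
          have e2 : τ (((i : ℕ) : ℤ) + m * (2 * n : ℕ)) = a ↔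
            ((i : ℕ) : ℤ) + m * (2 * n : ℕ) = τ a :=
            ⟨fun h => by rw [← h, hττ], fun h => by rw [h, hττ]⟩
          have e3 : τ (((i : ℕ) : ℤ) + m * (2 * n : ℕ)) = τ a ↔
            ((i : ℕ) : ℤ) + m * (2 * n : ℕ) = a :=
            ⟨fun h => by rw [← hττ (((i : ℕ) : ℤ) + m * (2 * n : ℕ)), h, hττ],
              fun h => by rw [h]⟩
          simp only [e2, e3]
          ring
        · have h1 := hidle k
          have h2 : s.p (ly k) = lx k := by rw [← h1.1, hinv]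
          cases b
          · have h3 : s.p (Sum.inr (k, false)) = ly k := h1.1
            rw [h3]; simp [ly]
          · have h3 : s.p (Sum.inr (k, true)) = lx k := h2
            rw [h3]; simp [lx])
    refine ⟨fun k => Lk.ZA (2 * n) Z (0, k), ?_, ?_⟩
    · intro k k' h
      exact Lk.eqvGen_const (Lk.za_ea hLE hZ) h
    · intro k
      have h1 := hZ' (Sum.inl (modFin k)) ⟨_, rfl⟩ (k / (2 * n : ℕ))
      simp only [Lk.LfL, Lk.RfL] at h1
      have f1 := Lk.za_pr hZ (q := ((modFin k : Fin (2 * n)) : ℕ)) (m := k / (2 * n : ℕ))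
        (Nat.zero_le M) (modFin k).isLt.le
      have f2 := Lk.za_pr hZ (q := ((modFin k : Fin (2 * n)) : ℕ) + 1) (m := k / (2 * n : ℕ))
        (Nat.zero_le M) (modFin k).isLt
      have e2 : (((((modFin k : Fin (2 * n)) : ℕ) + 1 : ℕ) : ℤ)) + k / (2 * n : ℕ) * (2 * n : ℕ)
          = k + 1 := by
        conv_rhs => rw [hk0 k]
        push_cast; ring
      rw [← hk0 k] at f1 h1
      rw [e2] at f2
      beta_reduce
      rw [f1, f2, h1]
      ring
  · intro k k' m h
    exact ea_shift hLE h m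

/-- from the auxiliary relation to connections, for even gaps -/
theorem glue_even {n : ℕ} [NeZero (2 * n)] {M : ℕ} {ω ω' : ℕ → Fin (2 * n) → Bool} {k k' : ℤ}
    (h : Glue (RR M ω) (RR M ω') k k') :
    (Even k ↔ Even k') ∧ (Even k → Relation.EqvGen (fun a b : ℤ =>
      FConn M ω (0, 2 * a) (0, 2 * b) ∨ FConn M ω' (0, 2 * a) (0, 2 * b)) (k / 2) (k' / 2)) := by
  have key : ∀ (ω : ℕ → Fin (2 * n) → Bool) (a b : ℤ), RR M ω a b → (Even a ↔ Even b) ∧
      (Even a → FConn M ω (0, 2 * (a / 2)) (0, 2 * (b / 2))) := by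
    intro ω a b h
    obtain ⟨h1, h2⟩ := Lk.ea_parity h
    simp only at h1 h2
    have h3 : Even a ↔ Even b := by
      rw [Int.even_iff, Int.even_iff]; push_cast at h1; omega
    refine ⟨h3, fun ha => ?_⟩
    have hb := h3.1 ha
    rw [Int.even_iff] at ha hb
    have e1 : 2 * (a / 2) = a := by omega
    have e2 : 2 * (b / 2) = b := by omega
    rw [e1, e2]
    exact h2 (by push_cast; omega)
  induction h with
  | rel a b h =>
    rcases h with h | h
    · obtain ⟨h1, h2⟩ := key ω a b h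
      exact ⟨h1, fun ha => Relation.EqvGen.rel _ _ (Or.inl (h2 ha))⟩
    · obtain ⟨h1, h2⟩ := key ω' a b h
      exact ⟨h1, fun ha => Relation.EqvGen.rel _ _ (Or.inr (h2 ha))⟩
  | refl a => exact ⟨Iff.rfl, fun _ => Relation.EqvGen.refl _⟩
  | symm a b _ ih => exact ⟨ih.1.symm, fun h => (ih.2 (ih.1.2 h)).symm _ _⟩
  | trans a b c _ _ ih1 ih2 =>
    exact ⟨ih1.1.trans ih2.1, fun h => (ih1.2 h).trans _ _ _ (ih2.2 (ih1.1.1 h))⟩

theorem glue_of {n : ℕ} [NeZero (2 * n)] {M : ℕ} {ω ω' : ℕ → Fin (2 * n) → Bool} {a b : ℤ}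
    (h : Relation.EqvGen (fun a b : ℤ =>
      FConn M ω (0, 2 * a) (0, 2 * b) ∨ FConn M ω' (0, 2 * a) (0, 2 * b)) a b) :
    Glue (RR M ω) (RR M ω') (2 * a) (2 * b) := by
  induction h with
  | rel a b h =>
    refine Relation.EqvGen.rel _ _ ?_
    rcases h with h | h
    · exact Or.inl (Relation.EqvGen.mono (fun a b h => Or.inl h) _ _ h)
    · exact Or.inr (Relation.EqvGen.mono (fun a b h => Or.inl h) _ _ h)
  | refl a => exact Relation.EqvGen.refl _
  | symm a b _ ih => exact ih.symm _ _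
  | trans a b c _ _ ih1 ih2 => exact ih1.trans _ _ _ ih2

/-- the boundary vertices connected in the glued cylinder of height `2M` -/
def BConn {L : ℕ} [NeZero L] (M : ℕ) (ω ω' : ℕ → Fin L → Bool) : ℤ → ℤ → Prop :=
  Relation.EqvGen (fun a b : ℤ =>
      FConn M ω (0, 2 * a) (0, 2 * b) ∨ FConn M ω' (0, 2 * a) (0, 2 * b))

/-- **the origin winds iff no closed loop surrounds it** -/
theorem winds_iff_noLoop (n : ℕ) [NeZero (2 * n)] (M : ℕ) (ω ω' : ℕ → Fin (2 * n) → Bool)
    (x : ℤ) : (∃ m : ℤ, m ≠ 0 ∧ BConn M ω ω' x (x + m * n)) ↔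
      NoLoop (cov (runRows ω M (cap n M))) (cov (runRows ω' M (cap n M))) (2 * x) := by
  have hn : (0 : ℤ) < ((2 * n : ℕ) : ℤ) := by
    have := Nat.pos_of_ne_zero (NeZero.ne (2 * n))
    exact_mod_cast this
  rw [← dict hn (half_data n M ω) (half_data n M ω') (2 * x)]
  refine exists_congr fun m => and_congr_right fun _ => ?_
  constructor
  · intro h
    have h1 := glue_of h
    have e : 2 * (x + m * n) = 2 * x + m * ((2 * n : ℕ) : ℤ) := by push_cast; ring
    rw [e] at h1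
    exact h1
  · intro h
    have h1 := (glue_even h).2 (even_two_mul x)
    have e1 : 2 * x / 2 = x := by omega
    have e2 : (2 * x + m * ((2 * n : ℕ) : ℤ)) / 2 = x + m * n := by
      have : 2 * x + m * ((2 * n : ℕ) : ℤ) = 2 * (x + m * n) := by push_cast; ring
      rw [this]; omega
    rw [e1, e2] at h1
    exact h1

end Pool.Agent.H63.Bulk
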