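import Mathlib
import Pool.Agent.H63.Bulk.Upper
import Pool.Agent.H63.Bulk.HalfData

set_option autoImplicit false

/-! The bi-infinite cylinder is cut into two half-infinite cylinders. -/

open MeasureTheory Filter Topology

namespace Pool.Agent.H63.Bulk

open Pool.Agent.H65.Perc St

/-- the upper half -/
def iU (n : ℕ) (e : ℕ × ZMod n × Bool) : ℤ × ZMod n × Bool := ((e.1 : ℤ), e.2.1, e.2.2)

/-- the lower half, reflected -/
def iD (n : ℕ) (e : ℕ × ZMod n × Bool) : ℤ × ZMod n × Bool :=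
  if e.2.2 = true then (-(e.1 : ℤ) - 1, e.2.1 - (e.1 : ZMod n), false)
  else (-(e.1 : ℤ) - 1, e.2.1 - (e.1 : ZMod n) - 1, true)

def up (n : ℕ) (ω : BConf n) : CConf n := fun e => ω (iU n e)
def dn (n : ℕ) (ω : BConf n) : CConf n := fun e => ω (iD n e)

/-- reflection across the line `x + y = 0` -/
def rho (u : ℤ × ℤ) : ℤ × ℤ := (-u.2, -u.1)

theorem rho_rho (u : ℤ × ℤ) : rho (rho u) = u := by
  unfold rho; simp

theorem rho_bdry (x : ℤ) : rho (x, -x) = (x, -x) := by
  unfold rho; simp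

theorem up_val (n : ℕ) (ω : BConf n) (k : ℤ) (hk : 0 ≤ k) (a : ZMod n) (d : Bool) :
    up n ω (k.toNat, a, d) = ω (k, a, d) := by
  unfold up iU
  simp only
  rw [Int.toNat_of_nonneg hk]

theorem dn_true (n : ℕ) (ω : BConf n) (k : ℤ) (hk : 0 ≤ k) (x : ℤ) :
    dn n ω (k.toNat, (x : ZMod n), true) = ω (-k - 1, ((x - k : ℤ) : ZMod n), false) := by
  unfold dn iD
  simp only [if_true]
  have h1 : ((k.toNat : ℕ) : ℤ) = k := Int.toNat_of_nonneg hk
  have h2 : ((k.toNat : ℕ) : ZMod n) = ((k : ℤ) : ZMod n) := by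
    conv_rhs => rw [← h1]
    rw [Int.cast_natCast]
  rw [h1, h2]
  push_cast
  rfl

theorem dn_false (n : ℕ) (ω : BConf n) (k : ℤ) (hk : 0 ≤ k) (x : ℤ) :
    dn n ω (k.toNat, (x : ZMod n), false) = ω (-k - 1, ((x - k - 1 : ℤ) : ZMod n), true) := by
  unfold dn iD
  simp only [Bool.false_eq_true, if_false]
  have h1 : ((k.toNat : ℕ) : ℤ) = k := Int.toNat_of_nonneg hk
  have h2 : ((k.toNat : ℕ) : ZMod n) = ((k : ℤ) : ZMod n) := by
    conv_rhs => rw [← h1]
    rw [Int.cast_natCast]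
  rw [h1, h2]
  push_cast
  rfl

/-- one oriented edge of the bulk -/
def BE (n : ℕ) (ω : BConf n) (u v : ℤ × ℤ) : Prop :=
  (v = (u.1 + 1, u.2) ∧ ω (u.1 + u.2, (u.1 : ZMod n), true) = true) ∨
     (v = (u.1, u.2 + 1) ∧ ω (u.1 + u.2, (u.1 : ZMod n), false) = true)

/-- one oriented edge of the half-cylinder -/
def CE (n : ℕ) (ω : CConf n) (u v : ℤ × ℤ) : Prop :=
  0 ≤ u.1 + u.2 ∧
    ((v = (u.1 + 1, u.2) ∧ ω ((u.1 + u.2).toNat, (u.1 : ZMod n), true) = true) ∨
     (v = (u.1, u.2 + 1) ∧ ω ((u.1 + u.2).toNat, (u.1 : ZMod n), false) = true))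

theorem bulk_adj_iff (n : ℕ) (ω : BConf n) (u v : ℤ × ℤ) :
    (bulkGraph n ω).Adj u v ↔ u ≠ v ∧ (BE n ω u v ∨ BE n ω v u) := by
  simp only [bulkGraph, SimpleGraph.fromRel_adj, BE]

theorem cyl_adj_iff (n : ℕ) (ω : CConf n) (u v : ℤ × ℤ) :
    (cylGraph n ω).Adj u v ↔ u ≠ v ∧ (CE n ω u v ∨ CE n ω v u) := by
  simp only [cylGraph, SimpleGraph.fromRel_adj, CE]

theorem CE_up {n : ℕ} {ω : BConf n} {u v : ℤ × ℤ} :
    CE n (up n ω) u v ↔ 0 ≤ u.1 + u.2 ∧ BE n ω u v := by
  unfold CE BE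
  constructor
  · rintro ⟨h0, h⟩
    rw [up_val n ω _ h0, up_val n ω _ h0] at h
    exact ⟨h0, h⟩
  · rintro ⟨h0, h⟩
    rw [up_val n ω _ h0, up_val n ω _ h0]
    exact ⟨h0, h⟩

theorem CE_dn {n : ℕ} {ω : BConf n} {u v : ℤ × ℤ} :
    CE n (dn n ω) u v ↔ 0 ≤ u.1 + u.2 ∧ BE n ω (rho v) (rho u) := by
  unfold CE BE
  refine and_congr_right fun h0 => ?_
  rw [dn_true n ω _ h0, dn_false n ω _ h0]
  obtain ⟨a, b⟩ := u
  obtain ⟨c, d⟩ := v
  simp only [rho, Prod.mk.injEq] at h0 ⊢
  constructor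
  · rintro (⟨⟨h1, h2⟩, h3⟩ | ⟨⟨h1, h2⟩, h3⟩)
    · right
      refine ⟨by omega, ?_⟩
      have e1 : -(a + b) - 1 = -d + -c := by omega
      have e2 : a - (a + b) = -d := by omega
      rw [e1, e2] at h3
      exact h3
    · left
      refine ⟨by omega, ?_⟩
      have e1 : -(a + b) - 1 = -d + -c := by omega
      have e2 : a - (a + b) - 1 = -d := by omega
      rw [e1, e2] at h3
      exact h3
  · rintro (⟨⟨h1, h2⟩, h3⟩ | ⟨⟨h1, h2⟩, h3⟩)
    · right
      refine ⟨by omega, ?_⟩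
      have e1 : -(a + b) - 1 = -d + -c := by omega
      have e2 : a - (a + b) - 1 = -d := by omega
      rw [e1, e2]
      exact h3
    · left
      refine ⟨by omega, ?_⟩
      have e1 : -(a + b) - 1 = -d + -c := by omega
      have e2 : a - (a + b) = -d := by omega
      rw [e1, e2]
      exact h3

theorem BE_level {n : ℕ} {ω : BConf n} {u v : ℤ × ℤ} (h : BE n ω u v) :
    v.1 + v.2 = u.1 + u.2 + 1 := by
  rcases h with ⟨rfl, -⟩ | ⟨rfl, -⟩ <;> simp only <;> ring

theorem up_bulk {n : ℕ} {ω : BConf n} {u v : ℤ × ℤ} (h : (cylGraph n (up n ω)).Reachable u v) :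
    (bulkGraph n ω).Reachable u v := by
  rw [SimpleGraph.reachable_iff_reflTransGen] at h ⊢
  refine Relation.ReflTransGen.mono (fun a b hab => ?_) _ _ h
  rw [cyl_adj_iff, CE_up, CE_up] at hab
  rw [bulk_adj_iff]
  exact ⟨hab.1, hab.2.imp And.right And.right⟩

theorem dn_bulk {n : ℕ} {ω : BConf n} {u v : ℤ × ℤ} (h : (cylGraph n (dn n ω)).Reachable u v) :
    (bulkGraph n ω).Reachable (rho u) (rho v) := by
  rw [SimpleGraph.reachable_iff_reflTransGen] at h
  induction h with
  | refl => exact SimpleGraph.Reachable.refl _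
  | @tail b c _ hbc ih =>
    refine ih.trans (SimpleGraph.Adj.reachable ?_)
    rw [cyl_adj_iff, CE_dn, CE_dn] at hbc
    rw [bulk_adj_iff]
    refine ⟨?_, ?_⟩
    · intro h
      apply hbc.1
      rw [← rho_rho b, h, rho_rho]
    · rcases hbc.2 with h | h
      · exact Or.inr h.2
      · exact Or.inl h.2

/-- boundary vertices connected through the two halves -/
def KK (n : ℕ) (ω : BConf n) : ℤ → ℤ → Prop :=
  Relation.EqvGen (fun a b : ℤ => (cylGraph n (up n ω)).Reachable (a, -a) (b, -b) ∨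
    (cylGraph n (dn n ω)).Reachable (a, -a) (b, -b))

theorem KK_bulk {n : ℕ} {ω : BConf n} {a b : ℤ} (h : KK n ω a b) :
    (bulkGraph n ω).Reachable (a, -a) (b, -b) := by
  induction h with
  | rel a b h =>
    rcases h with h | h
    · exact up_bulk h
    · have := dn_bulk h
      rwa [rho_bdry, rho_bdry] at this
  | refl a => exact SimpleGraph.Reachable.refl _
  | symm a b _ ih => exact ih.symm
  | trans a b c _ _ ih1 ih2 => exact ih1.trans ih2

theorem bulk_inv {n : ℕ} {ω : BConf n} {a : ℤ} {w : ℤ × ℤ}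
    (h : (bulkGraph n ω).Reachable (a, -a) w) :
    ∃ x, KK n ω a x ∧ (0 ≤ w.1 + w.2 → (cylGraph n (up n ω)).Reachable (x, -x) w) ∧
      (w.1 + w.2 < 0 → (cylGraph n (dn n ω)).Reachable (x, -x) (rho w)) := by
  rw [SimpleGraph.reachable_iff_reflTransGen] at h
  induction h with
  | refl => exact ⟨a, Relation.EqvGen.refl _, fun _ => SimpleGraph.Reachable.refl _,
      fun h => by simp at h⟩
  | @tail b c _ hbc ih =>
    obtain ⟨x, hx, h1, h2⟩ := ih
    rw [bulk_adj_iff] at hbc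
    obtain ⟨hne, hbc⟩ := hbc
    have hlev : c.1 + c.2 = b.1 + b.2 + 1 ∨ b.1 + b.2 = c.1 + c.2 + 1 := by
      rcases hbc with h | h
      · exact Or.inl (BE_level h)
      · exact Or.inr (BE_level h)
    by_cases hb : 0 ≤ b.1 + b.2
    · by_cases hc : 0 ≤ c.1 + c.2
      · refine ⟨x, hx, fun _ => (h1 hb).trans (SimpleGraph.Adj.reachable ?_), fun h => by omega⟩
        rw [cyl_adj_iff, CE_up, CE_up]
        exact ⟨hne, hbc.imp (fun h => ⟨hb, h⟩) (fun h => ⟨hc, h⟩)⟩
      · -- from level 0 to level -1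
        have hb0 : b.1 + b.2 = 0 := by omega
        have hb1 : b = (b.1, -b.1) := Prod.ext rfl (by simp only; omega)
        have hKx : KK n ω a b.1 := by
          have h3 := h1 hb
          rw [hb1] at h3
          exact hx.trans _ _ _ (Relation.EqvGen.rel _ _ (Or.inl h3))
        refine ⟨b.1, hKx, fun h => absurd h hc, fun _ => SimpleGraph.Adj.reachable ?_⟩
        rw [cyl_adj_iff, CE_dn, CE_dn, ← hb1, rho_rho]
        have hrb : rho b = b := by rw [hb1, rho_bdry]
        refine ⟨?_, Or.inl ⟨by omega, ?_⟩⟩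
        · intro h
          apply hne
          have h5 := congrArg rho h
          rw [rho_rho, hrb] at h5
          exact h5
        · rw [hrb]
          rcases hbc with h | h
          · have := BE_level h; omega
          · exact h
    · by_cases hc : 0 ≤ c.1 + c.2
      · -- from level -1 to level 0
        have hc0 : c.1 + c.2 = 0 := by omega
        have hc1 : c = (c.1, -c.1) := Prod.ext rfl (by simp only; omega)
        have hrc : rho c = c := by rw [hc1, rho_bdry]
        have h3 : (cylGraph n (dn n ω)).Reachable (x, -x) c := by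
          refine (h2 (by omega)).trans (SimpleGraph.Adj.reachable ?_)
          rw [cyl_adj_iff, CE_dn, CE_dn, rho_rho]
          refine ⟨?_, Or.inr ⟨by omega, ?_⟩⟩
          · intro h
            apply hne
            have h5 := congrArg rho h
            rw [rho_rho, hrc] at h5
            exact h5
          · rw [hrc]
            rcases hbc with h | h
            · exact h
            · have := BE_level h; omega
        have hKx : KK n ω a c.1 := by
          rw [hc1] at h3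
          exact hx.trans _ _ _ (Relation.EqvGen.rel _ _ (Or.inr h3))
        refine ⟨c.1, hKx, fun _ => ?_, fun h => by omega⟩
        rw [← hc1]
      · refine ⟨x, hx, fun h => absurd h hc, fun _ => (h2 (by omega)).trans
          (SimpleGraph.Adj.reachable ?_)⟩
        rw [cyl_adj_iff, CE_dn, CE_dn, rho_rho, rho_rho]
        refine ⟨?_, ?_⟩
        · intro h
          apply hne
          rw [← rho_rho b, h, rho_rho]
        · have e1 : (rho b).1 + (rho b).2 = -(b.1 + b.2) := by unfold rho; simp only; ring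
          have e2 : (rho c).1 + (rho c).2 = -(c.1 + c.2) := by unfold rho; simp only; ring
          rcases hbc with h | h
          · exact Or.inr ⟨by omega, h⟩
          · exact Or.inl ⟨by omega, h⟩

theorem bulk_iff_KK {n : ℕ} {ω : BConf n} {a b : ℤ} :
    (bulkGraph n ω).Reachable (a, -a) (b, -b) ↔ KK n ω a b := by
  constructor
  · intro h
    obtain ⟨x, hx, h1, -⟩ := bulk_inv h
    exact hx.trans _ _ _ (Relation.EqvGen.rel _ _ (Or.inl (h1 (by simp))))
  · exact KK_bulk

theorem reach_iff_fconn {n : ℕ} [NeZero n] {ω : CConf n} {a b : ℤ} :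
    (cylGraph n ω).Reachable (a, -a) (b, -b) ↔
      ∃ M, FConn M (rowsOf n ω) (0, 2 * a) (0, 2 * b) := by
  have e : ∀ a : ℤ, fc (a, -a) = (0, 2 * a) := by
    intro a
    simp only [fc, Prod.mk.injEq]; omega
  have e' : ∀ a : ℤ, vt (0, 2 * a) = (a, -a) := by
    intro a
    simp only [vt, Prod.mk.injEq]; push_cast; omega
  constructor
  · intro h
    obtain ⟨M, hM⟩ := fconn_of_reachable n ω _ _ h
    rw [e, e] at hM
    exact ⟨M, hM⟩
  · rintro ⟨M, hM⟩
    have := (reachable_of_fconn n ω hM).2 (by simp)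
    rwa [e', e'] at this

theorem BConn.mono {n : ℕ} [NeZero (2 * n)] {M M' : ℕ} (h : M ≤ M') {ω ω' : ℕ → Fin (2 * n) → Bool}
    {a b : ℤ} (hab : BConn M ω ω' a b) : BConn M' ω ω' a b := by
  refine Relation.EqvGen.mono (fun a b hab => ?_) _ _ hab
  exact hab.imp (fun h' => h'.mono h) (fun h' => h'.mono h)

theorem KK_iff {n : ℕ} [NeZero n] {ω : BConf n} {a b : ℤ} :
    KK n ω a b ↔ ∃ M, BConn M (rowsOf n (up n ω)) (rowsOf n (dn n ω)) a b := by
  constructor
  · intro h
    induction h with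
    | rel a b h =>
      rcases h with h | h
      · obtain ⟨M, hM⟩ := reach_iff_fconn.1 h
        exact ⟨M, Relation.EqvGen.rel _ _ (Or.inl hM)⟩
      · obtain ⟨M, hM⟩ := reach_iff_fconn.1 h
        exact ⟨M, Relation.EqvGen.rel _ _ (Or.inr hM)⟩
    | refl a => exact ⟨0, Relation.EqvGen.refl _⟩
    | symm a b _ ih =>
      obtain ⟨M, hM⟩ := ih
      exact ⟨M, hM.symm _ _⟩
    | trans a b c _ _ ih1 ih2 =>
      obtain ⟨M, hM⟩ := ih1
      obtain ⟨M', hM'⟩ := ih2
      exact ⟨max M M', (hM.mono (le_max_left _ _)).trans _ _ _ (hM'.mono (le_max_right _ _))⟩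
  · rintro ⟨M, hM⟩
    refine Relation.EqvGen.mono (fun a b hab => ?_) _ _ hM
    rcases hab with h | h
    · exact Or.inl (reach_iff_fconn.2 ⟨M, h⟩)
    · exact Or.inr (reach_iff_fconn.2 ⟨M, h⟩)

/-- the origin winds through the rows `-M, …, M - 1` -/
def BWindsM (n : ℕ) [NeZero n] (M : ℕ) (ω : BConf n) : Prop :=
  ∃ m : ℤ, m ≠ 0 ∧ BConn M (rowsOf n (up n ω)) (rowsOf n (dn n ω)) 0 (0 + m * n)

theorem bwinds_iff (n : ℕ) [NeZero n] (ω : BConf n) : BWinds n ω ↔ ∃ M, BWindsM n M ω := by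
  unfold BWinds BWindsM
  have e : ∀ m : ℤ, (bulkGraph n ω).Reachable (0, 0) (m * n, -(m * n)) ↔
      ∃ M, BConn M (rowsOf n (up n ω)) (rowsOf n (dn n ω)) 0 (0 + m * n) := by
    intro m
    rw [← KK_iff, ← bulk_iff_KK]
    simp
  simp only [e]
  constructor
  · rintro ⟨m, hm, M, h⟩; exact ⟨M, m, hm, h⟩
  · rintro ⟨M, m, hm, h⟩; exact ⟨m, hm, M, h⟩

theorem BWindsM.mono {n : ℕ} [NeZero n] {M M' : ℕ} (h : M ≤ M') {ω : BConf n}
    (hw : BWindsM n M ω) : BWindsM n M' ω := by
  obtain ⟨m, hm, h'⟩ := hw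
  exact ⟨m, hm, BConn.mono h h'⟩

theorem bconn_congr {n : ℕ} [NeZero (2 * n)] {M : ℕ} {ω ω' η η' : ℕ → Fin (2 * n) → Bool}
    (h : ∀ r < M, ω r = η r) (h' : ∀ r < M, ω' r = η' r) {a b : ℤ} :
    BConn M ω ω' a b ↔ BConn M η η' a b := by
  constructor
  · refine Relation.EqvGen.mono (fun a b hab => ?_) _ _
    exact hab.imp (fconn_congr h _ _) (fconn_congr h' _ _)
  · refine Relation.EqvGen.mono (fun a b hab => ?_) _ _
    exact hab.imp (fconn_congr (fun r hr => (h r hr).symm) _ _)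
      (fconn_congr (fun r hr => (h' r hr).symm) _ _)

theorem bwindsM_iff (n : ℕ) [NeZero n] (M : ℕ) (ω : BConf n) :
    BWindsM n M ω ↔ NoLoop (cov (runRows (extRows (restr n M (up n ω))) M (cap n M)))
      (cov (runRows (extRows (restr n M (dn n ω))) M (cap n M))) 0 := by
  have h := winds_iff_noLoop n M (extRows (restr n M (up n ω))) (extRows (restr n M (dn n ω))) 0
  rw [mul_zero] at h
  rw [← h]
  unfold BWindsM
  refine exists_congr fun m => and_congr_right fun _ => ?_
  exact bconn_congr (fun r hr => (extRows_restr n M _ r hr).symm)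
    (fun r hr => (extRows_restr n M _ r hr).symm)

end Pool.Agent.H63.Bulk
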