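import Mathlib
import Pool.Agent.H63.Bulk.Abs
import Pool.Agent.H51.TA.Defs

set_option autoImplicit false

/-! `NoLoop` in terms of the number `mc` of closed loops around the gap. -/

namespace Pool.Agent.H63.Bulk

open Pool.Agent.H51.TA (Loop loopsAround mc)

theorem loop_stable {f g : ℤ → ℤ} {x y : ℤ} (h : Loop f g x y) : Loop f g x (f y) ∧
    Loop f g x (g y) :=
  ⟨h.trans _ _ _ (Relation.EqvGen.rel _ _ (Or.inl rfl)),
    h.trans _ _ _ (Relation.EqvGen.rel _ _ (Or.inr rfl))⟩

theorem loop_sub {f g : ℤ → ℤ} (hf : ∀ x, f (f x) = x) (hg : ∀ x, g (g x) = x) {S : Set ℤ}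
    (h1 : ∀ k ∈ S, f k ∈ S) (h2 : ∀ k ∈ S, g k ∈ S) {x y : ℤ} (h : Loop f g x y) :
    x ∈ S ↔ y ∈ S := by
  induction h with
  | rel a b h =>
    rcases h with rfl | rfl
    · exact ⟨h1 a, fun h => by have := h1 _ h; rwa [hf] at this⟩
    · exact ⟨h2 a, fun h => by have := h2 _ h; rwa [hg] at this⟩
  | refl a => exact Iff.rfl
  | symm a b _ ih => exact ih.symm
  | trans a b c _ _ ih1 ih2 => exact ih1.trans ih2

theorem noLoop_iff {f g : ℤ → ℤ} (hf : ∀ x, f (f x) = x) (hg : ∀ x, g (g x) = x) (c : ℤ) :
    NoLoop f g c ↔ loopsAround f g c = ∅ := by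
  classical
  constructor
  · intro h
    rw [Set.eq_empty_iff_forall_notMem]
    rintro O ⟨⟨x, hx⟩, hfin, hodd⟩
    refine h hfin.toFinset ?_ ?_ ?_
    · intro k hk
      rw [Set.Finite.mem_toFinset, hx] at hk ⊢
      exact (loop_stable hk).1
    · intro k hk
      rw [Set.Finite.mem_toFinset, hx] at hk ⊢
      exact (loop_stable hk).2
    · have e : ((hfin.toFinset.filter (fun a => a < c) : Finset ℤ) : Set ℤ) = O ∩ Set.Iio c := by
        ext y
        simp
      rw [← e, Set.ncard_coe_finset] at hodd
      exact hodd
  · intro h
    have key : ∀ (N : ℕ) (S : Finset ℤ), S.card ≤ N → (∀ k ∈ S, f k ∈ S) → (∀ k ∈ S, g k ∈ S) →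
        Even (S.filter (fun a => a < c)).card := by
      intro N
      induction N with
      | zero =>
        intro S hS _ _
        have : S = ∅ := Finset.card_eq_zero.1 (by omega)
        subst this
        simp
      | succ N ih =>
        intro S hS h1 h2
        rcases S.eq_empty_or_nonempty with rfl | ⟨x, hx⟩
        · simp
        · set O : Finset ℤ := S.filter (fun y => Loop f g x y) with hO
          have hOset : ((O : Finset ℤ) : Set ℤ) = {y | Loop f g x y} := by
            ext y
            rw [hO, Finset.coe_filter]
            simp only [Set.mem_ofPred_eq]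
            refine ⟨fun h => h.2, fun h => ⟨?_, h⟩⟩
            exact_mod_cast (loop_sub hf hg (S := (S : Set ℤ)) (fun k hk => by exact_mod_cast h1 k hk)
              (fun k hk => by exact_mod_cast h2 k hk) h).1 hx
          have hev : Even (O.filter (fun a => a < c)).card := by
            by_contra hodd
            rw [Nat.not_even_iff_odd] at hodd
            have : (O : Set ℤ) ∈ loopsAround f g c := by
              refine ⟨⟨x, hOset⟩, O.finite_toSet, ?_⟩
              have e : ((O.filter (fun a => a < c) : Finset ℤ) : Set ℤ) = (O : Set ℤ) ∩ Set.Iio c := by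
                ext y
                simp
              rw [← e, Set.ncard_coe_finset]
              exact hodd
            rw [h] at this
            exact this
          have hrest := ih (S.filter (fun y => ¬ Loop f g x y)) ?_ ?_ ?_
          · have e1 : (S.filter (fun a => a < c)).card = (O.filter (fun a => a < c)).card +
                ((S.filter (fun y => ¬ Loop f g x y)).filter (fun a => a < c)).card := by
              have e2 : (S.filter (fun y => ¬ Loop f g x y)).filter (fun a => a < c) =
                  (S.filter (fun a => a < c)).filter (fun y => ¬ Loop f g x y) :=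
                Finset.filter_comm _ _ _
              rw [hO, Finset.filter_comm, e2]
              exact (Finset.card_filter_add_card_filter_not (s := S.filter (fun a => a < c))
                (fun y => Loop f g x y)).symm
            rw [e1]
            exact hev.add hrest
          · have h3 : (S.filter (fun y => ¬ Loop f g x y)).card < S.card := by
              refine Finset.card_lt_card (Finset.filter_ssubset.2 ⟨x, hx, ?_⟩)
              rw [not_not]
              exact Relation.EqvGen.refl _
            omega
          · intro k hk
            rw [Finset.mem_filter] at hk ⊢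
            refine ⟨h1 k hk.1, fun hl => hk.2 ?_⟩
            have := (loop_stable hl).1
            rwa [hf] at this
          · intro k hk
            rw [Finset.mem_filter] at hk ⊢
            refine ⟨h2 k hk.1, fun hl => hk.2 ?_⟩
            have := (loop_stable hl).2
            rwa [hg] at this
    intro S h1 h2 hodd
    exact (Nat.not_even_iff_odd.2 hodd) (key _ S le_rfl h1 h2)

open Classical in
theorem zero_pow_mc {f g : ℤ → ℤ} (hf : ∀ x, f (f x) = x) (hg : ∀ x, g (g x) = x) (c : ℤ)
    (hfin : (loopsAround f g c).Finite) {R : Type*} [MonoidWithZero R] :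
    (0 : R) ^ mc f g c = if NoLoop f g c then 1 else 0 := by
  rw [noLoop_iff hf hg]
  unfold mc
  by_cases h : loopsAround f g c = ∅
  · rw [if_pos h, h, Set.ncard_empty, pow_zero]
  · rw [if_neg h]
    refine zero_pow ?_
    rw [Ne, Set.ncard_eq_zero hfin]
    exact h

end Pool.Agent.H63.Bulk
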