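import Mathlib
import Pool.Agent.H63.Bulk.Split
import Pool.Agent.H65.Perc.Assembly

set_option autoImplicit false

/-! The probability that the origin winds around the bi-infinite cylinder, in terms of the
stationary distribution of the half-infinite cylinder. -/

open MeasureTheory Filter Topology

namespace Pool.Agent.H63.Bulk

open Pool.Agent.H65.Perc St

theorem iU_inj (n : ℕ) : Function.Injective (iU n) := by
  rintro ⟨k, a, d⟩ ⟨k', a', d'⟩ h
  simp only [iU, Prod.mk.injEq] at h
  obtain ⟨h1, h2, h3⟩ := h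
  have : k = k' := by exact_mod_cast h1
  rw [this, h2, h3]

theorem iD_inj (n : ℕ) : Function.Injective (iD n) := by
  rintro ⟨k, a, d⟩ ⟨k', a', d'⟩ h
  unfold iD at h
  cases d <;> cases d' <;> simp only [Bool.false_eq_true, if_false, if_true, Prod.mk.injEq,
    reduceCtorEq, and_false, false_and, and_true] at h
  · obtain ⟨h1, h2⟩ := h
    have : k = k' := by omega
    subst this
    have h3 : a = a' := by
      have := congrArg (fun x : ZMod n => x + 1 + (k : ZMod n)) h2
      simpa using this
    rw [h3]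
  · obtain ⟨h1, h2⟩ := h
    have : k = k' := by omega
    subst this
    have h3 : a = a' := by
      have := congrArg (fun x : ZMod n => x + (k : ZMod n)) h2
      simpa using this
    rw [h3]

theorem iU_ne_iD (n : ℕ) (e e' : ℕ × ZMod n × Bool) : iU n e ≠ iD n e' := by
  intro h
  have h1 := congrArg Prod.fst h
  unfold iU iD at h1
  split_ifs at h1 <;> simp only at h1 <;> omega

/-- the edges of the rows `-M, …, M - 1` -/
def eAll (n M : ℕ) : (Fin M × Fin (2 * n)) ⊕ (Fin M × Fin (2 * n)) → ℤ × ZMod n × Bool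
  | Sum.inl p => iU n (edgeOf n p.1 (p.2.val : ℤ))
  | Sum.inr p => iD n (edgeOf n p.1 (p.2.val : ℤ))

theorem eAll_inj (n M : ℕ) [NeZero n] : Function.Injective (eAll n M) := by
  rintro (p | p) (q | q) h
  · have h1 := edgeOf_inj n (iU_inj n h)
    rw [h1]
  · exact absurd h (iU_ne_iD n _ _)
  · exact absurd h.symm (iU_ne_iD n _ _)
  · have h1 := edgeOf_inj n (iD_inj n h)
    rw [h1]

/-- both restrictions -/
def jres (n M : ℕ) (ω : BConf n) : (Fin M → Fin (2 * n) → Bool) × (Fin M → Fin (2 * n) → Bool) :=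
  (restr n M (up n ω), restr n M (dn n ω))

theorem measurable_jres (n M : ℕ) : Measurable (jres n M) := by
  refine Measurable.prodMk ?_ ?_
  · refine (measurable_restr n M).comp ?_
    exact measurable_pi_lambda _ fun e => measurable_pi_apply _
  · refine (measurable_restr n M).comp ?_
    exact measurable_pi_lambda _ fun e => measurable_pi_apply _

theorem bulkMeasure_jres (n : ℕ) [NeZero n] (M : ℕ)
    (η : (Fin M → Fin (2 * n) → Bool) × (Fin M → Fin (2 * n) → Bool)) :
    (bulkMeasure n) (jres n M ⁻¹' {η}) = (1 / 2) ^ (2 * n * M + 2 * n * M) := by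
  classical
  set e := eAll n M with he
  set val : (Fin M × Fin (2 * n)) ⊕ (Fin M × Fin (2 * n)) → Bool := fun q =>
    match q with
    | Sum.inl p => if ((p.1.val : ℤ) + (p.2.val : ℤ)) % 2 = 0 then !(η.1 p.1 p.2) else η.1 p.1 p.2
    | Sum.inr p => if ((p.1.val : ℤ) + (p.2.val : ℤ)) % 2 = 0 then !(η.2 p.1 p.2) else η.2 p.1 p.2
    with hval
  have hinj : Function.Injective e := eAll_inj n M
  have hset : jres n M ⁻¹' {η} = Set.pi (↑(Finset.univ.image e))
      (fun i => {Function.extend e val (fun _ => true) i}) := by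
    ext ω
    simp only [Set.mem_preimage, Set.mem_singleton_iff, Set.mem_pi, Finset.coe_image,
      Finset.coe_univ, Set.image_univ, Set.mem_range, forall_exists_index,
      forall_apply_eq_imp_iff]
    constructor
    · intro h p
      rw [hinj.extend_apply]
      rcases p with p | p
      · simp only [hval]
        rw [← h]
        simp only [jres, restr, rowsOf, he, eAll, up]
        split_ifs <;> simp
      · simp only [hval]
        rw [← h]
        simp only [jres, restr, rowsOf, he, eAll, dn]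
        split_ifs <;> simp
    · intro h
      refine Prod.ext ?_ ?_
      · funext r i
        have := h (Sum.inl (r, i))
        rw [hinj.extend_apply] at this
        simp only [hval, he, eAll] at this
        simp only [jres, restr, rowsOf, up]
        rw [this]
        split_ifs <;> simp
      · funext r i
        have := h (Sum.inr (r, i))
        rw [hinj.extend_apply] at this
        simp only [hval, he, eAll] at this
        simp only [jres, restr, rowsOf, dn]
        rw [this]
        split_ifs <;> simp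
  rw [hset, bulkMeasure, Measure.infinitePi_pi _ (fun i _ => MeasurableSet.singleton _)]
  have h1 : ∀ b : Bool, ((PMF.uniformOfFintype Bool).toMeasure) {b} = 1 / 2 := by
    intro b
    rw [PMF.toMeasure_apply_singleton _ _ (MeasurableSet.singleton _)]
    simp
  simp only [h1]
  rw [Finset.prod_const, Finset.card_image_of_injective _ hinj]
  simp only [Finset.card_univ, Fintype.card_sum, Fintype.card_prod, Fintype.card_fin]
  rw [mul_comm M]

/-- the law of the two restrictions -/
theorem prob_jres (n : ℕ) [NeZero n] (M : ℕ)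
    (A : (Fin M → Fin (2 * n) → Bool) → (Fin M → Fin (2 * n) → Bool) → ℝ) :
    ∫ ω, A (jres n M ω).1 (jres n M ω).2 ∂(bulkMeasure n) = (1 / 2 : ℝ) ^ (2 * n * M) *
      ∑ η : Fin M → Fin (2 * n) → Bool, (1 / 2 : ℝ) ^ (2 * n * M) *
        ∑ η' : Fin M → Fin (2 * n) → Bool, A η η' := by
  have h1 : ∫ ω, A (jres n M ω).1 (jres n M ω).2 ∂(bulkMeasure n)
      = ∫ η, A η.1 η.2 ∂((bulkMeasure n).map (jres n M)) := by
    rw [integral_map (measurable_jres n M).aemeasurable
      (measurable_of_finite (fun η : (Fin M → Fin (2 * n) → Bool) ×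
        (Fin M → Fin (2 * n) → Bool) => A η.1 η.2)).aestronglyMeasurable]
  rw [h1]
  have : IsProbabilityMeasure ((bulkMeasure n).map (jres n M)) :=
    Measure.isProbabilityMeasure_map (measurable_jres n M).aemeasurable
  rw [integral_fintype (Integrable.of_finite), Fintype.sum_prod_type]
  simp only [Finset.mul_sum]
  refine Finset.sum_congr rfl fun η _ => Finset.sum_congr rfl fun η' _ => ?_
  rw [Measure.real, Measure.map_apply (measurable_jres n M) (MeasurableSet.singleton _),
    bulkMeasure_jres, pow_add]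
  simp
  ring

open Classical in
/-- indicator of a state -/
noncomputable def dlt {n : ℕ} [NeZero n] (x : PX (2 * n)) : PX (2 * n) → ℝ :=
  fun y => if y = x then 1 else 0

theorem lin_eq_mass {n : ℕ} [NeZero n] (Ψ : (PX (2 * n) → ℝ) →ₗ[ℝ] ℝ) (f : PX (2 * n) → ℝ) :
    Ψ f = ∑ x, f x * Ψ (dlt x) := by
  classical
  have h : f = ∑ x, f x • dlt x := by
    funext y
    rw [Finset.sum_apply]
    simp only [Pi.smul_apply, smul_eq_mul, dlt, mul_ite, mul_one, mul_zero]
    rw [Finset.sum_ite_eq Finset.univ y f, if_pos (Finset.mem_univ _)]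
  conv_lhs => rw [h]
  rw [map_sum]
  refine Finset.sum_congr rfl fun x _ => ?_
  rw [map_smul, smul_eq_mul]

/-- finite height -/
theorem integral_states (n : ℕ) [NeZero n] (M : ℕ) (B : St (Lab (2 * n)) → St (Lab (2 * n)) → ℝ) :
    ∫ ω, B (runRows (extRows (jres n M ω).1) M (cap n M))
        (runRows (extRows (jres n M ω).2) M (cap n M)) ∂(bulkMeasure n)
      = (SX (1 / 2) ^ M) (fun x : PX (2 * n) => (SX (1 / 2) ^ M) (fun y : PX (2 * n) =>
          B x.1 y.1) ⟨cap n M, planar_cap n M⟩) ⟨cap n M, planar_cap n M⟩ := by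
  rw [prob_jres n M (fun η η' => B (runRows (extRows η) M (cap n M))
    (runRows (extRows η') M (cap n M)))]
  have h1 := avg_rows (L := 2 * n) (fun s : St (Lab (2 * n)) =>
    (SX (1 / 2) ^ M) (fun y : PX (2 * n) => B s y.1) ⟨cap n M, planar_cap n M⟩) M
    ⟨cap n M, planar_cap n M⟩
  have h2 : (resX fun s : St (Lab (2 * n)) =>
    (SX (1 / 2) ^ M) (fun y : PX (2 * n) => B s y.1) ⟨cap n M, planar_cap n M⟩) =
    (fun x : PX (2 * n) => (SX (1 / 2) ^ M) (fun y : PX (2 * n) =>
          B x.1 y.1) ⟨cap n M, planar_cap n M⟩) := rfl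
  rw [h2] at h1
  rw [h1]
  congr 1
  refine Finset.sum_congr rfl fun η _ => ?_
  exact (avg_rows (L := 2 * n) (fun s' => B (runRows (extRows η) M (cap n M)) s') M
    ⟨cap n M, planar_cap n M⟩).symm

/-- **infinite height**: the states of the two half-cylinders are independent and stationary -/
theorem tendsto_states (n : ℕ) [NeZero n] {Ψ : (PX (2 * n) → ℝ) →ₗ[ℝ] ℝ}
    (hlim : ∀ f : PX (2 * n) → ℝ, ∀ x, Tendsto (fun M : ℕ => (SX (1 / 2) ^ M) f x) atTop
      (𝓝 (Ψ f))) (B : St (Lab (2 * n)) → St (Lab (2 * n)) → ℝ) :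
    Tendsto (fun M : ℕ => ∫ ω, B (runRows (extRows (jres n M ω).1) M (cap n M))
        (runRows (extRows (jres n M ω).2) M (cap n M)) ∂(bulkMeasure n)) atTop
      (𝓝 (Ψ (fun x : PX (2 * n) => Ψ (fun y : PX (2 * n) => B x.1 y.1)))) := by
  classical
  simp only [integral_states]
  have hexp : ∀ (Φ : (PX (2 * n) → ℝ) →ₗ[ℝ] ℝ), Φ (fun x : PX (2 * n) =>
      Φ (fun y : PX (2 * n) => B x.1 y.1)) =
      ∑ x, ∑ y, B x.1 y.1 * Φ (dlt y) * Φ (dlt x) := by
    intro Φ
    rw [lin_eq_mass Φ]
    refine Finset.sum_congr rfl fun x _ => ?_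
    rw [lin_eq_mass Φ (fun y => B x.1 y.1), Finset.sum_mul]
  have hM : ∀ M : ℕ, (SX (1 / 2) ^ M) (fun x : PX (2 * n) => (SX (1 / 2) ^ M) (fun y : PX (2 * n) =>
          B x.1 y.1) ⟨cap n M, planar_cap n M⟩) ⟨cap n M, planar_cap n M⟩ =
      ∑ x, ∑ y, B x.1 y.1 * (SX (1 / 2) ^ M) (dlt y) ⟨cap n M, planar_cap n M⟩ *
        (SX (1 / 2) ^ M) (dlt x) ⟨cap n M, planar_cap n M⟩ := by
    intro M
    exact hexp ((LinearMap.proj (⟨cap n M, planar_cap n M⟩ : PX (2 * n))).comp (SX (1 / 2) ^ M))
  simp only [hM]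
  rw [hexp Ψ]
  refine tendsto_finsetSum _ fun x _ => tendsto_finsetSum _ fun y _ => ?_
  refine ((tendsto_caps n hlim (dlt y)).const_mul _).mul (tendsto_caps n hlim (dlt x))

open Classical in
/-- **P1**: the probability that the origin winds around the bi-infinite cylinder -/
theorem prob_bwinds (n : ℕ) [NeZero n] {Ψ : (PX (2 * n) → ℝ) →ₗ[ℝ] ℝ}
    (hlim : ∀ f : PX (2 * n) → ℝ, ∀ x, Tendsto (fun M : ℕ => (SX (1 / 2) ^ M) f x) atTop
      (𝓝 (Ψ f))) :
    ((bulkMeasure n) {ω | BWinds n ω}).toReal =
      Ψ (fun x : PX (2 * n) => Ψ (fun y : PX (2 * n) =>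
        if NoLoop (cov x.1) (cov y.1) 0 then 1 else 0)) := by
  have h1 := tendsto_states n hlim (fun s s' => if NoLoop (cov s) (cov s') 0 then 1 else 0)
  refine tendsto_nhds_unique ?_ h1
  have hset : ∀ M, {ω : BConf n | BWindsM n M ω} = jres n M ⁻¹'
      {η | NoLoop (cov (runRows (extRows η.1) M (cap n M)))
        (cov (runRows (extRows η.2) M (cap n M))) 0} := by
    intro M
    ext ω
    exact bwindsM_iff n M ω
  have hmeas : ∀ M, MeasurableSet {ω : BConf n | BWindsM n M ω} := by
    intro M
    rw [hset]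
    exact measurable_jres n M (Set.toFinite _).measurableSet
  have h2 : ∀ M : ℕ, ∫ ω, (if NoLoop (cov (runRows (extRows (jres n M ω).1) M (cap n M)))
        (cov (runRows (extRows (jres n M ω).2) M (cap n M))) 0 then (1 : ℝ) else 0)
        ∂(bulkMeasure n) = ((bulkMeasure n) {ω : BConf n | BWindsM n M ω}).toReal := by
    intro M
    have h3 : (fun ω => if NoLoop (cov (runRows (extRows (jres n M ω).1) M (cap n M)))
        (cov (runRows (extRows (jres n M ω).2) M (cap n M))) 0 then (1 : ℝ) else 0) =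
        Set.indicator {ω : BConf n | BWindsM n M ω} (fun _ => (1 : ℝ)) := by
      funext ω
      rw [Set.indicator_apply]
      have : BWindsM n M ω ↔ NoLoop (cov (runRows (extRows (jres n M ω).1) M (cap n M)))
        (cov (runRows (extRows (jres n M ω).2) M (cap n M))) 0 := bwindsM_iff n M ω
      by_cases h : BWindsM n M ω
      · rw [if_pos (this.1 h), if_pos (show ω ∈ {ω : BConf n | BWindsM n M ω} from h)]
      · rw [if_neg (fun h' => h (this.2 h')),
          if_neg (show ¬ ω ∈ {ω : BConf n | BWindsM n M ω} from h)]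
    rw [h3, integral_indicator_const _ (hmeas M), smul_eq_mul, mul_one, Measure.real]
  simp only [h2]
  have h4 : {ω : BConf n | BWinds n ω} = ⋃ M, {ω : BConf n | BWindsM n M ω} := by
    ext ω
    rw [Set.mem_iUnion]
    exact bwinds_iff n ω
  rw [h4]
  have h5 := tendsto_measure_iUnion_atTop (μ := bulkMeasure n)
    (s := fun M => {ω : BConf n | BWindsM n M ω}) (fun M M' h ω hω => BWindsM.mono h hω)
  exact (ENNReal.tendsto_toReal (measure_ne_top _ _)).comp h5

end Pool.Agent.H63.Bulk
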