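import Mathlib
import Pool.Agent.H63.Bulk.Defs
import Pool.Agent.H63.Perc.Windy

set_option autoImplicit false
open Finset MeasureTheory

/-! The one-arm probability of the plane is at most a constant times the winding probability. -/

namespace Pool.Agent.H63.Bulk

open Pool.Agent.H75.Perc
open Pool.Agent.H63.Perc
open Pool.Agent.H65.Perc (PConf planeMeasure)

/-! ### the beginning -/

/-- the first piece: the arm from the origin is glued to the long crossing -/
lemma startB {j : ℤ} (hj : 1 ≤ j) {S : Set (ℤ × ℤ)} {ωA ωH : Finset (ℤ × ℤ)}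
    (hA : ωA ⊆ Bx (-(2 * j)) (2 * j) (-(2 * j)) (2 * j))
    (hSA : ∀ e ∈ ωA, e ∈ S) (hSH : ∀ e ∈ ωH, e ∈ S)
    {v : ℤ × ℤ} (hv : v.2 = 2 * j) (h0v : Co ωA 0 v)
    (hH : HC (-(2 * j)) (6 * j) 0 (2 * j) ωH) :
    ∃ p q, inB (2 * j) (6 * j) 0 (2 * j) p ∧ p.1 = 2 * j ∧ q.1 = 6 * j ∧
      Co (ωH ∩ Bx (2 * j) (6 * j) 0 (2 * j)) p q ∧ CoS S 0 p := by
  obtain ⟨p, q, p1, p2, p3, p4⟩ := hH
  set ω2 := ωH ∩ Bx (-(2 * j)) (6 * j) 0 (2 * j) with hω2
  have hq : inB (-(2 * j)) (6 * j) 0 (2 * j) q := p4.inB inter_subset_right p1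
  -- the arm, from the bottom to the top of the strip
  have h0B : inB (-(2 * j)) (2 * j) (-(2 * j)) (2 * j) 0 := by
    unfold inB; simp only [Prod.fst_zero, Prod.snd_zero]; omega
  obtain ⟨b, b', hb, hb', hbad, hbx, -⟩ := exit_co (X := fun z => 1 ≤ z.2) h0v.symm
    (by show 1 ≤ v.2; omega) (by simp)
  have hb0 : b'.2 = 0 := by
    have h5 := unit_cases hbad.1
    omega
  have hvb : CoX ωA (fun z => 0 ≤ z.2) v b' :=
    Relation.ReflTransGen.tail (CoX.mono' (fun z hz => by omega) hbx)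
      ⟨hbad, by simp only; omega⟩
  have hBprop : ∀ w, CoX ωA (fun z => 0 ≤ z.2) v w →
      inB (-(2 * j)) (2 * j) (-(2 * j)) (2 * j) w := by
    intro w hw
    exact (h0v.trans hw.co).inB hA h0B
  have hP : ∀ q, Co ω2 p q →
      Relation.ReflTransGen (fun u v => King (v - u) ∧ Co ω2 p v) p q := by
    intro q hq
    induction hq with
    | refl => exact Relation.ReflTransGen.refl
    | tail hab hbc ih =>
      exact Relation.ReflTransGen.tail ih ⟨hbc.1.king, Relation.ReflTransGen.tail hab hbc⟩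
  obtain ⟨w, hwA, hwB⟩ := cross_set (A := fun z => Co ω2 p z)
    (B := fun w => CoX ωA (fun z => 0 ≤ z.2) v w)
    (a := -(2 * j)) (b := 6 * j) (c := 0) (d := 2 * j)
    (hP q p4) (Co.refl _ _)
    (Relation.ReflTransGen.mono (fun a b hab => ⟨hab.1.1, hab.2⟩) _ _ (CoX.rev hvb)) hvb
    (fun z hz => (hz.inB (a := -(2 * j)) (b := 6 * j) (c := 0) (d := 2 * j)
      inter_subset_right p1).2)
    (fun z hz => by have := hBprop z hz; unfold inB at this; omega)
    p2 p3 hb0 hv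
  have hwbox := hBprop w hwB
  -- connections in `S`
  have h0w : CoS S 0 w := co_toS hSA (h0v.trans hwB.co)
  have hqw : CoS S q w := co_toS (fun e he => hSH e (mem_inter.1 he).1) (p4.symm.trans hwA)
  -- the left end of the piece
  obtain ⟨z, z', hz, hz', had, hcx, -⟩ := exit_co
    (X := fun z => inB (-(2 * j)) (6 * j) 0 (2 * j) z ∧ 2 * j + 1 ≤ z.1) (p4.symm.trans hwA)
    ⟨hq, by omega⟩ (by unfold inB at hwbox; omega)
  have hz'B := (had.inB (a := -(2 * j)) (b := 6 * j) (c := 0) (d := 2 * j)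
    inter_subset_right).2
  have hz'1 : z'.1 = 2 * j := by
    have h5 := unit_cases had.1
    have h6 : ¬ 2 * j + 1 ≤ z'.1 := fun h => hz' ⟨hz'B, h⟩
    omega
  have hbox' : inB (2 * j) (6 * j) 0 (2 * j) z' := by unfold inB at hz'B ⊢; omega
  have hqbox : inB (2 * j) (6 * j) 0 (2 * j) q := by unfold inB at hq ⊢; omega
  have hcx' : CoX ω2 (inB (2 * j) (6 * j) 0 (2 * j)) q z' :=
    Relation.ReflTransGen.tail (CoX.mono' (fun z hz => by
      unfold inB at hz ⊢; omega) hcx) ⟨had, hbox'⟩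
  have hco : Co (ω2 ∩ Bx (2 * j) (6 * j) 0 (2 * j)) q z' := hcx'.box (fun z hz => hz) hqbox
  have hco' : Co (ωH ∩ Bx (2 * j) (6 * j) 0 (2 * j)) q z' :=
    hco.mono (inter_subset_inter_right inter_subset_left)
  refine ⟨z', q, hbox', hz'1, p3, hco'.symm, ?_⟩
  refine (h0w.trans hqw.symm).trans (co_toS ?_ hco')
  intro e he
  exact hSH e (mem_inter.1 he).1

/-! ### events -/

/-- the periodic set of open labels -/
def PB (n : ℤ) (ω : Finset (ℤ × ℤ)) : Set (ℤ × ℤ) := fun e => rp n e ∈ ω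

lemma mem_PB {n : ℤ} {ω : Finset (ℤ × ℤ)} {e : ℤ × ℤ} : e ∈ PB n ω ↔ rp n e ∈ ω := Iff.rfl

lemma PB_shift {n : ℤ} {ω : Finset (ℤ × ℤ)} : ∀ e, e ∈ PB n ω → e + (2 * n, -(2 * n)) ∈ PB n ω := by
  intro e he
  rw [mem_PB] at he ⊢
  rw [rp_shift]
  exact he

/-- labels of the window of the arm -/
noncomputable def FB (j : ℤ) : Finset (ℤ × ℤ) := Bx (-(2 * j)) (2 * j) (-(2 * j)) (2 * j)

def evB (n j : ℤ) (ω : Finset (ℤ × ℤ)) : Prop := AT j (pull n (FB j) ω)

lemma evB_inc (n j : ℤ) : Inc (evB n j) := fun _ _ h h' => AT_inc j _ _ (pull_mono h) h'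

lemma Pr_evB {n j L : ℤ} (hj : 1 ≤ j) (hn : 8 * j < n) (hL : 16 * j ≤ L) :
    Pr (EC n L) (evB n j) = Pr (FB j) (AT j) := by
  unfold evB pull
  refine Pr_pull (rp_inj ?_) ?_ (AT j)
  · intro e he e' he'
    have h1 := mem_Bx.1 he
    have h2 := mem_Bx.1 he'
    omega
  · intro e he
    have h1 := mem_Bx.1 he
    exact rp_mem_EC (by omega) (by omega) (by omega) h1.2.2

lemma glueB {n j : ℤ} (hj : 1 ≤ j) (ω : Finset (ℤ × ℤ)) (t : ℕ → ℤ)
    (M : ℕ) (hM : 1 ≤ M) (h0 : t 0 = 0) (htn : t M = n)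
    (ht : ∀ i < M, t i ≤ t (i + 1) ∧ t (i + 1) ≤ t i + 2 * j)
    (hA : evB n j ω) (hS : evS n j ω) (hH : ∀ i < M, evH n j (t i) ω)
    (hV : ∀ i < M, evV n j (t i) ω) : CoS (PB n ω) 0 (n, -n) := by
  obtain ⟨v, hv1, hv2⟩ := hA
  obtain ⟨p, q, s1, s2, s3, s4, s5⟩ := startB hj (S := PB n ω)
    (ωA := pull n (FB j) ω) (ωH := pull n (Bx (-(2 * j)) (6 * j) 0 (2 * j)) ω)
    (pull_sub _ _ _)
    (fun e he => (mem_pull.1 he).2)
    (fun e he => (mem_pull.1 he).2) hv1 hv2 hS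
  refine stair hj PB_shift t M hM h0 htn ht (p := p) ?_ s5 ?_ ?_
  · refine ⟨pull n (Bx (-(2 * j)) (6 * j) 0 (2 * j)) ω ∩ Bx (2 * j) (6 * j) 0 (2 * j), q,
      ?_, ?_, ?_, ?_, ?_, s4⟩
    · intro e he
      rw [mem_inter] at he
      exact (mem_pull.1 he.1).2
    · intro e he
      have h1 := mem_Bx.1 (mem_inter.1 he).2
      rw [mem_Bx]; omega
    · unfold inB at s1 ⊢; omega
    · omega
    · omega
  · intro i _ hi
    obtain ⟨p', q', a1, a2, a3, a4⟩ := hH i hi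
    refine ⟨p', pull n (Bx (2 * j + t i) (6 * j + t i) (-t i) (2 * j - t i)) ω ∩
      Bx (2 * j + t i) (6 * j + t i) (-t i) (2 * j - t i), q', ?_, inter_subset_right, a1, a2, a3,
      a4⟩
    intro e he
    rw [mem_inter] at he
    exact (mem_pull.1 he.1).2
  · intro i hi
    obtain ⟨p', q', a1, a2, a3, a4⟩ := hV i hi
    refine ⟨pull n (Bx (4 * j + t i) (6 * j + t i) (-(2 * j) - t i) (2 * j - t i)) ω ∩
      Bx (4 * j + t i) (6 * j + t i) (-(2 * j) - t i) (2 * j - t i), p', q', ?_,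
      inter_subset_right, a1, a2, a3, a4⟩
    intro e he
    rw [mem_inter] at he
    exact (mem_pull.1 he.1).2

/-- the finite winding event -/
def WB (n : ℤ) (ω : Finset (ℤ × ℤ)) : Prop := CoS (PB n ω) 0 (n, -n)

lemma Pr_WB_lower {n j L : ℤ} (hj : 1 ≤ j) (hn : 8 * j < n) (hn' : n ≤ 18 * j)
    (hL : 16 * j ≤ L) : Pr (FB j) (AT j) * (1 / 2 ^ 317) ≤ Pr (EC n L) (WB n) := by
  obtain ⟨i, rfl⟩ : ∃ i : ℕ, j = i := ⟨j.toNat, by omega⟩
  have hi : 1 ≤ i := by omega
  set E := EC n L with hE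
  set t : ℕ → ℤ := fun k => min (2 * (i : ℤ) * k) n with htdef
  have ht : ∀ k : ℕ, t k ≤ t (k + 1) ∧ t (k + 1) ≤ t k + 2 * (i : ℤ) := by
    intro k
    have e1 : t k = min (2 * (i : ℤ) * k) n := rfl
    have e2 : t (k + 1) = min (2 * (i : ℤ) * k + 2 * i) n := by
      show min (2 * (i : ℤ) * ((k + 1 : ℕ) : ℤ)) n = _
      rw [show (2 * (i : ℤ) * ((k + 1 : ℕ) : ℤ)) = 2 * (i : ℤ) * k + 2 * i by push_cast; ring]
    rw [e1, e2]
    omega
  have ht0 : t 0 = 0 := by simp only [htdef]; push_cast; omega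
  have ht9 : t 9 = n := by simp only [htdef]; push_cast; omega
  have hHfin := harris_fin E (fun k => evH n i (t k)) 9 (fun k _ => evH_inc _ _ _)
    (c := 1 / 2 ^ 15) (by positivity) (fun k _ => by
      rw [Pr_evH hj hn hL]
      exact fc_four hi)
  have hVfin := harris_fin E (fun k => evV n i (t k)) 9 (fun k _ => evV_inc _ _ _)
    (c := 1 / 2 ^ 15) (by positivity) (fun k _ => by
      rw [Pr_evV hj hn hL]
      exact fc_four hi)
  have f1 := Pr_harris E (evB_inc n i) (evS_inc n i)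
  have f2 := Pr_harris E hHfin.2 hVfin.2
  have f3 := Pr_harris E (A := fun ω => evB n i ω ∧ evS n i ω)
    (B := fun ω => (∀ k < 9, evH n i (t k) ω) ∧ (∀ k < 9, evV n i (t k) ω))
    (fun _ _ h h' => ⟨evB_inc _ _ _ _ h h'.1, evS_inc _ _ _ _ h h'.2⟩)
    (fun _ _ h h' => ⟨hHfin.2 _ _ h h'.1, hVfin.2 _ _ h h'.2⟩)
  have f4 : Pr E (fun ω => (evB n i ω ∧ evS n i ω) ∧
      ((∀ k < 9, evH n i (t k) ω) ∧ (∀ k < 9, evV n i (t k) ω))) ≤ Pr E (WB n) := by
    apply Pr_mono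
    rintro ω _ ⟨⟨h1, h2⟩, h3, h4⟩
    exact glueB hj ω t 9 (by norm_num) ht0 ht9 (fun k _ => ht k) h1 h2 h3 h4
  have g1 : Pr E (evB n i) = Pr (FB i) (AT i) := Pr_evB hj hn hL
  have g2 : (1 : ℝ) / 2 ^ 47 ≤ Pr E (evS n i) := by
    rw [Pr_evS hj hn hL]; exact fc_eight hi
  have hA0 : 0 ≤ Pr (FB i) (AT i) := Pr_nonneg _ _
  have k1 : Pr (FB i) (AT i) * (1 / 2 ^ 47) ≤ Pr E (fun ω => evB n i ω ∧ evS n i ω) := by
    refine le_trans ?_ f1
    rw [g1]
    exact mul_le_mul_of_nonneg_left g2 hA0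
  have k2 : ((1 : ℝ) / 2 ^ 15) ^ 9 * (1 / 2 ^ 15) ^ 9 ≤
      Pr E (fun ω => (∀ k < 9, evH n i (t k) ω) ∧ (∀ k < 9, evV n i (t k) ω)) := by
    refine le_trans ?_ f2
    exact mul_le_mul hHfin.1 hVfin.1 (by positivity) (Pr_nonneg _ _)
  have k3 := (mul_le_mul k1 k2 (by positivity) (Pr_nonneg _ _)).trans (f3.trans f4)
  refine le_trans (le_of_eq ?_) k3
  have e : (1 : ℝ) / 2 ^ 317 = 1 / 2 ^ 47 * ((1 / 2 ^ 15) ^ 9 * (1 / 2 ^ 15) ^ 9) := by
    simp only [one_div, ← inv_pow]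
    rw [← pow_mul, ← pow_add, ← pow_add]
  rw [e]
  generalize ((1 : ℝ) / 2 ^ 15) ^ 9 = y
  ring

/-! ### the cylinder -/

/-- the edge of the cylinder with a given label -/
def phB (n : ℕ) (e : ℤ × ℤ) : ℤ × ZMod n × Bool :=
  ((e.1 + e.2 - 1) / 2, ((e.1 / 2 : ℤ) : ZMod n), decide (e.1 % 2 = 1))

lemma phB_inj (n : ℕ) (L : ℤ) : Set.InjOn (phB n) (EC n L) := by
  intro e he e' he' h
  have h1 := mem_EC.1 he
  have h1' := mem_EC.1 he'
  unfold phB at h
  simp only [Prod.mk.injEq, decide_eq_decide] at h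
  obtain ⟨h3, h4, h5⟩ := h
  rw [ZMod.intCast_eq_intCast_iff] at h4
  have h6 : e.1 / 2 = e'.1 / 2 := by
    unfold Int.ModEq at h4
    rw [Int.emod_eq_of_lt (by omega) (by omega), Int.emod_eq_of_lt (by omega) (by omega)] at h4
    exact h4
  have h7 : e.1 = e'.1 := by omega
  refine Prod.ext h7 ?_
  omega

lemma phB_rp {n : ℕ} (e : ℤ × ℤ) : phB n (rp n e) = phB n e := by
  have h1 := rp_sum n e
  unfold phB
  rw [h1]
  have h2 := Int.emod_add_mul_ediv e.1 (2 * (n : ℤ))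
  have h3 : (rp n e).1 = e.1 % (2 * (n : ℤ)) := rfl
  have h4 : e.1 / 2 = (rp n e).1 / 2 + n * (e.1 / (2 * (n : ℤ))) := by
    rw [h3]
    have : e.1 = e.1 % (2 * (n : ℤ)) + 2 * ((n : ℤ) * (e.1 / (2 * (n : ℤ)))) := by
      rw [← mul_assoc]; exact h2.symm
    omega
  have h5 : (rp n e).1 % 2 = e.1 % 2 := by
    rw [h3]
    have : e.1 = e.1 % (2 * (n : ℤ)) + 2 * ((n : ℤ) * (e.1 / (2 * (n : ℤ)))) := by
      rw [← mul_assoc]; exact h2.symm
    omega
  rw [h5, h4]
  push_cast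
  simp

lemma phB_val {n : ℕ} {e : ℤ × ℤ} (k : ℤ) (x : ℤ) (b : Bool)
    (h1 : (e.1 + e.2 - 1) / 2 = k) (h2 : e.1 / 2 = x) (h3 : e.1 % 2 = 1 ↔ b = true) :
    phB n e = (k, (x : ZMod n), b) := by
  unfold phB
  rw [h1, h2]
  congr 2
  rw [Bool.eq_iff_iff, decide_eq_true_iff]
  exact h3

lemma bulk_adj {n : ℕ} {L : ℤ} {ω : BConf n} {u v : ℤ × ℤ}
    (h : AdS (PB n (tr (EC n L) (phB n) ω)) u v) : (bulkGraph n ω).Adj u v := by
  obtain ⟨h1, h3⟩ := h
  have h4 := (mem_tr.1 h3).2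
  rw [phB_rp] at h4
  have hu := unit_cases h1
  unfold bulkGraph
  rw [SimpleGraph.fromRel_adj]
  have hne : u ≠ v := by
    rintro rfl
    omega
  refine ⟨hne, ?_⟩
  rcases hu with ⟨a, b⟩ | ⟨a, b⟩ | ⟨a, b⟩ | ⟨a, b⟩
  · left
    refine Or.inl ⟨Prod.ext a b, ?_⟩
    rw [phB_val (u.1 + u.2) u.1 true (by simp only [Prod.fst_add, Prod.snd_add]; omega)
      (by simp only [Prod.fst_add]; omega)
      (by simp only [Prod.fst_add, eq_self_iff_true, iff_true]; omega)] at h4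
    exact h4
  · left
    refine Or.inr ⟨Prod.ext a b, ?_⟩
    rw [phB_val (u.1 + u.2) u.1 false (by simp only [Prod.fst_add, Prod.snd_add]; omega)
      (by simp only [Prod.fst_add]; omega)
      (by simp only [Prod.fst_add, Bool.false_eq_true, iff_false]; omega)] at h4
    exact h4
  · right
    refine Or.inl ⟨Prod.ext (by simp only; omega) b.symm, ?_⟩
    rw [phB_val (v.1 + v.2) v.1 true (by simp only [Prod.fst_add, Prod.snd_add]; omega)
      (by simp only [Prod.fst_add]; omega)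
      (by simp only [Prod.fst_add, eq_self_iff_true, iff_true]; omega)] at h4
    exact h4
  · right
    refine Or.inr ⟨Prod.ext a.symm (by simp only; omega), ?_⟩
    rw [phB_val (v.1 + v.2) v.1 false (by simp only [Prod.fst_add, Prod.snd_add]; omega)
      (by simp only [Prod.fst_add]; omega)
      (by simp only [Prod.fst_add, Bool.false_eq_true, iff_false]; omega)] at h4
    exact h4

lemma bwinds_of_WB {n : ℕ} {L : ℤ} {ω : BConf n} (h : WB n (tr (EC n L) (phB n) ω)) :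
    BWinds n ω := by
  refine ⟨1, one_ne_zero, ?_⟩
  have h1 : ∀ v, CoS (PB n (tr (EC n L) (phB n) ω)) 0 v → (bulkGraph n ω).Reachable 0 v := by
    intro v hv
    induction hv with
    | refl => exact SimpleGraph.Reachable.refl _
    | tail _ hbc ih => exact ih.trans (bulk_adj hbc).reachable
  have h2 := h1 _ h
  have e2 : ((1 : ℤ) * (n : ℤ), -((1 : ℤ) * (n : ℤ))) = ((n : ℤ), -(n : ℤ)) := by simp
  rw [e2]
  exact h2

lemma bulk_lower (n : ℕ) (L : ℤ) :
    Pr (EC n L) (WB n) ≤ ((bulkMeasure n) {ω | BWinds n ω}).toReal := by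
  rw [← coins_tr (phB_inj n L) (WB n)]
  exact coins_mono (fun ω hω => bwinds_of_WB hω)

/-! ### the plane -/

lemma phP_injB (j : ℤ) : Set.InjOn phP (FB j) := by
  intro e he e' he' h
  have h1 := mem_Bx.1 he
  have h2 := mem_Bx.1 he'
  unfold phP at h
  simp only [Prod.mk.injEq, decide_eq_decide] at h
  refine Prod.ext ?_ ?_ <;> omega

/-- the arm reaches the bottom of the window -/
def AD' (j : ℤ) (ω : Finset (ℤ × ℤ)) : Prop := ∃ v : ℤ × ℤ, v.2 = -(2 * j) ∧ Co ω 0 v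

/-- the arm reaches the left side of the window -/
def AL' (j : ℤ) (ω : Finset (ℤ × ℤ)) : Prop := ∃ v : ℤ × ℤ, v.1 = -(2 * j) ∧ Co ω 0 v

lemma PrB_AR' (j : ℤ) : Pr (FB j) (AR' j) = Pr (FB j) (AT j) := by
  have hE : ∀ e, e ∈ FB j ↔ syD.G' e ∈ FB j := by
    intro e
    unfold FB
    rw [mem_Bx, mem_Bx]
    simp only [syD]
    omega
  rw [syD.Pr hE]
  apply Pr_congr
  intro ω _
  constructor
  · rintro ⟨v, h1, h2⟩
    refine ⟨(v.2, v.1), h1, ?_⟩
    have h3 : syD.g 0 = 0 := rfl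
    have h4 : syD.g (v.2, v.1) = v := rfl
    rw [← h3, ← h4] at h2
    exact (syD.co_iff ω 0 (v.2, v.1)).1 h2
  · rintro ⟨v, h1, h2⟩
    refine ⟨(v.2, v.1), h1, ?_⟩
    have h3 := (syD.co_iff ω 0 v).2 h2
    exact h3

lemma PrB_AD' (j : ℤ) : Pr (FB j) (AD' j) = Pr (FB j) (AT j) := by
  have hE : ∀ e, e ∈ FB j ↔ (syY 0).G' e ∈ FB j := by
    intro e
    unfold FB
    rw [mem_Bx, mem_Bx]
    simp only [syY]
    omega
  rw [(syY 0).Pr hE]
  apply Pr_congr
  intro ω _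
  have h3 : (syY 0).g 0 = 0 := rfl
  constructor
  · rintro ⟨v, h1, h2⟩
    refine ⟨(v.1, -v.2), by simp only; omega, ?_⟩
    have h4 : (syY 0).g (v.1, -v.2) = v := by
      simp only [syY]; exact Prod.ext rfl (by simp only; omega)
    rw [← h3, ← h4] at h2
    exact ((syY 0).co_iff ω 0 (v.1, -v.2)).1 h2
  · rintro ⟨v, h1, h2⟩
    refine ⟨(v.1, -v.2), by simp only; omega, ?_⟩
    have h5 := ((syY 0).co_iff ω 0 v).2 h2
    have h4 : (syY 0).g v = (v.1, -v.2) := by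
      simp only [syY]; exact Prod.ext rfl (by simp only; omega)
    rw [h3, h4] at h5
    exact h5

lemma PrB_AL' (j : ℤ) : Pr (FB j) (AL' j) = Pr (FB j) (AR' j) := by
  have hE : ∀ e, e ∈ FB j ↔ (syX 0).G' e ∈ FB j := by
    intro e
    unfold FB
    rw [mem_Bx, mem_Bx]
    simp only [syX]
    omega
  rw [(syX 0).Pr hE]
  apply Pr_congr
  intro ω _
  have h3 : (syX 0).g 0 = 0 := rfl
  constructor
  · rintro ⟨v, h1, h2⟩
    refine ⟨(-v.1, v.2), by simp only; omega, ?_⟩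
    have h4 : (syX 0).g (-v.1, v.2) = v := by
      simp only [syX]; exact Prod.ext (by simp only; omega) rfl
    rw [← h3, ← h4] at h2
    exact ((syX 0).co_iff ω 0 (-v.1, v.2)).1 h2
  · rintro ⟨v, h1, h2⟩
    refine ⟨(-v.1, v.2), by simp only; omega, ?_⟩
    have h5 := ((syX 0).co_iff ω 0 v).2 h2
    have h4 : (syX 0).g v = (-v.1, v.2) := by
      simp only [syX]; exact Prod.ext (by simp only; omega) rfl
    rw [h3, h4] at h5
    exact h5

lemma plane_armB {n : ℕ} {j : ℤ} (hj : 1 ≤ j) (hjn : 2 * j ≤ n) {ω : PConf} (h : OneArm n ω) :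
    (AT j (tr (FB j) phP ω) ∨ AR' j (tr (FB j) phP ω)) ∨
      (AD' j (tr (FB j) phP ω) ∨ AL' j (tr (FB j) phP ω)) := by
  obtain ⟨v, hv, hr⟩ := h
  rw [SimpleGraph.reachable_iff_reflTransGen] at hr
  set X : ℤ × ℤ → Prop := fun z => (z.1 < 2 * j ∧ z.2 < 2 * j) ∧ (-(2 * j) < z.1 ∧ -(2 * j) < z.2)
    with hX
  set ω' := tr (FB j) phP ω with hω'
  have key : ∀ v, Relation.ReflTransGen (planeGraph ω).Adj (0, 0) v →
      (X v ∧ Co ω' 0 v) ∨ ((AT j ω' ∨ AR' j ω') ∨ (AD' j ω' ∨ AL' j ω')) := by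
    intro v hv
    induction hv with
    | refl =>
      left
      refine ⟨⟨⟨by simp only; omega, by simp only; omega⟩, by simp only; omega, by simp only; omega⟩,
        Co.refl _ _⟩
    | @tail b c _ hbc ih =>
      rcases ih with ⟨hb, hco⟩ | h
      · obtain ⟨⟨hb1, hb2⟩, hb3, hb4⟩ := hb
        -- the edge
        have hedge : IsUnit4 (c - b) ∧ b + c ∈ ω' := by
          unfold planeGraph at hbc
          rw [SimpleGraph.fromRel_adj] at hbc
          obtain ⟨_, hbc⟩ := hbc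
          have hcases : (c.1 = b.1 + 1 ∧ c.2 = b.2 ∧ ω ((b.1, b.2), true) = true) ∨
              (c.1 = b.1 ∧ c.2 = b.2 + 1 ∧ ω ((b.1, b.2), false) = true) ∨
              (b.1 = c.1 + 1 ∧ b.2 = c.2 ∧ ω ((c.1, c.2), true) = true) ∨
              (b.1 = c.1 ∧ b.2 = c.2 + 1 ∧ ω ((c.1, c.2), false) = true) := by
            rcases hbc with (⟨h2, h3⟩ | ⟨h2, h3⟩) | (⟨h2, h3⟩ | ⟨h2, h3⟩)
            · left
              exact ⟨by rw [h2], by rw [h2], h3⟩
            · right; left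
              exact ⟨by rw [h2], by rw [h2], h3⟩
            · right; right; left
              exact ⟨by rw [h2], by rw [h2], h3⟩
            · right; right; right
              exact ⟨by rw [h2], by rw [h2], h3⟩
          refine ⟨?_, ?_⟩
          · unfold IsUnit4
            simp only [Prod.ext_iff, Prod.fst_sub, Prod.snd_sub]
            omega
          · rw [hω', mem_tr]
            unfold FB
            rw [mem_Bx]
            simp only [Prod.fst_add, Prod.snd_add]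
            refine ⟨by omega, ?_⟩
            rcases hcases with ⟨a1, a2, a3⟩ | ⟨a1, a2, a3⟩ | ⟨a1, a2, a3⟩ | ⟨a1, a2, a3⟩
            · rw [phP_val b true (by simp only [Prod.fst_add]; omega)
                (by simp only [Prod.snd_add]; omega)
                (by simp only [Prod.fst_add, eq_self_iff_true, iff_true]; omega)]
              exact a3
            · rw [phP_val b false (by simp only [Prod.fst_add]; omega)
                (by simp only [Prod.snd_add]; omega)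
                (by simp only [Prod.fst_add, Bool.false_eq_true, iff_false]; omega)]
              exact a3
            · rw [phP_val c true (by simp only [Prod.fst_add]; omega)
                (by simp only [Prod.snd_add]; omega)
                (by simp only [Prod.fst_add, eq_self_iff_true, iff_true]; omega)]
              exact a3
            · rw [phP_val c false (by simp only [Prod.fst_add]; omega)
                (by simp only [Prod.snd_add]; omega)
                (by simp only [Prod.fst_add, Bool.false_eq_true, iff_false]; omega)]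
              exact a3
        obtain ⟨g1, g2⟩ := hedge
        have hco' : Co ω' 0 c := Relation.ReflTransGen.tail hco ⟨g1, g2⟩
        have hu := unit_cases g1
        by_cases hc1 : c.2 = 2 * j
        · exact Or.inr (Or.inl (Or.inl ⟨c, hc1, hco'⟩))
        by_cases hc2 : c.1 = 2 * j
        · exact Or.inr (Or.inl (Or.inr ⟨c, hc2, hco'⟩))
        by_cases hc3 : c.2 = -(2 * j)
        · exact Or.inr (Or.inr (Or.inl ⟨c, hc3, hco'⟩))
        by_cases hc4 : c.1 = -(2 * j)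
        · exact Or.inr (Or.inr (Or.inr ⟨c, hc4, hco'⟩))
        exact Or.inl ⟨⟨⟨by omega, by omega⟩, by omega, by omega⟩, hco'⟩
      · exact Or.inr h
  rcases key v hr with ⟨hv', _⟩ | h
  · exfalso
    obtain ⟨⟨h1, h2⟩, h3, h4⟩ := hv'
    rcases hv with h5 | h5
    · have : |v.1| < n := by rw [abs_lt]; omega
      omega
    · have : |v.2| < n := by rw [abs_lt]; omega
      omega
  · exact h

lemma plane_upperB {n : ℕ} {j : ℤ} (hj : 1 ≤ j) (hjn : 2 * j ≤ n) :
    (planeMeasure {ω | OneArm n ω}).toReal ≤ 4 * Pr (FB j) (AT j) := by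
  have h1 : (planeMeasure {ω | OneArm n ω}).toReal ≤
      (coins ((ℤ × ℤ) × Bool) {ω | (AT j (tr (FB j) phP ω) ∨ AR' j (tr (FB j) phP ω)) ∨
      (AD' j (tr (FB j) phP ω) ∨ AL' j (tr (FB j) phP ω))}).toReal :=
    coins_mono (fun ω hω => plane_armB hj hjn hω)
  refine h1.trans ?_
  rw [coins_tr (phP_injB j) (fun ω => (AT j ω ∨ AR' j ω) ∨ (AD' j ω ∨ AL' j ω))]
  have h2 := Pr_or_le (FB j) (fun ω => AT j ω ∨ AR' j ω) (fun ω => AD' j ω ∨ AL' j ω)
  have h3 := Pr_or_le (FB j) (AT j) (AR' j)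
  have h4 := Pr_or_le (FB j) (AD' j) (AL' j)
  rw [PrB_AL', PrB_AR', PrB_AD'] at h4
  rw [PrB_AR'] at h3
  linarith

/-! ### the theorem -/

lemma small_lowerB {n : ℕ} (hn : 1 ≤ n) : (1 / 2 : ℝ) ^ (2 * n) ≤ Pr (EC n 1) (WB n) := by
  refine (small_lower hn).trans ?_
  rw [← Pr_restrict (E := EC n 1) (E1 := EH n 1) (filter_subset _ _)]
  apply Pr_mono
  intro ω _ h
  exact Relation.ReflTransGen.mono (fun a b hab => ⟨hab.1, (mem_inter.1 hab.2.2).1⟩) _ _ h

/-- lower bound -/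
theorem oneArm_le_bwinds : ∃ C : ℝ, 0 < C ∧ ∀ n : ℕ, 1 ≤ n →
    (planeMeasure {ω | OneArm n ω}).toReal ≤ C * ((bulkMeasure n) {ω | BWinds n ω}).toReal := by
  refine ⟨2 ^ 319, by positivity, ?_⟩
  intro n hn
  rcases Nat.lt_or_ge n 9 with hlt | hge
  · -- small circumference
    have h1 : (planeMeasure {ω | OneArm n ω}).toReal ≤ 1 := by
      have : planeMeasure = coins ((ℤ × ℤ) × Bool) := rfl
      rw [this]
      have h2 : coins ((ℤ × ℤ) × Bool) {ω | OneArm n ω} ≤ 1 := prob_le_one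
      exact ENNReal.toReal_le_of_le_ofReal (by norm_num) (by simpa using h2)
    have h2 := (small_lowerB hn).trans (bulk_lower n 1)
    have h3 : (1 / 2 : ℝ) ^ 16 ≤ (1 / 2) ^ (2 * n) :=
      pow_le_pow_of_le_one (by norm_num) (by norm_num) (by omega)
    have h4 : (1 : ℝ) ≤ 2 ^ 319 * (1 / 2) ^ 16 := by
      have e1 : (2 : ℝ) ^ 319 = 2 ^ 303 * 2 ^ 16 := by rw [← pow_add]
      have e2 : (2 : ℝ) ^ 319 * (1 / 2) ^ 16 = 2 ^ 303 := by
        rw [e1, mul_assoc, ← mul_pow]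
        norm_num
      rw [e2]
      exact one_le_pow₀ (by norm_num)
    calc (planeMeasure {ω | OneArm n ω}).toReal ≤ 1 := h1
      _ ≤ 2 ^ 319 * (1 / 2) ^ 16 := h4
      _ ≤ _ := mul_le_mul_of_nonneg_left (h3.trans h2) (by positivity)
  · set j : ℕ := n / 9 with hjdef
    have hj1 : (1 : ℤ) ≤ (j : ℤ) := by omega
    have hj2 : 8 * (j : ℤ) < (n : ℤ) := by omega
    have hj3 : (n : ℤ) ≤ 18 * (j : ℤ) := by omega
    have h1 := plane_upperB (n := n) (j := j) hj1 (by omega)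
    have h2 := Pr_WB_lower (n := n) (j := j) (L := 16 * j) hj1 hj2 hj3 le_rfl
    have h3 := bulk_lower n (16 * j)
    have h4 := h2.trans h3
    have h5 : (4 : ℝ) * Pr (FB j) (AT j) = 2 ^ 319 * (Pr (FB j) (AT j) * (1 / 2 ^ 317)) := by
      have : (2 : ℝ) ^ 319 * (1 / 2 ^ 317) = 4 := by
        have h0 : (2 : ℝ) ^ 317 ≠ 0 := by positivity
        rw [show (319 : ℕ) = 317 + 2 by norm_num, pow_add (2 : ℝ) 317 2]
        generalize (2 : ℝ) ^ 317 = y at h0
        field_simp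
        norm_num
      rw [mul_left_comm, ← mul_assoc, mul_comm (Pr (FB j) (AT j)) ((2 : ℝ) ^ 319), mul_assoc,
        mul_comm (Pr (FB j) (AT j)) (1 / 2 ^ 317), ← mul_assoc, this]
    rw [h5] at h1
    exact h1.trans (mul_le_mul_of_nonneg_left h4 (by positivity))

end Pool.Agent.H63.Bulk
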