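import Mathlib
import Pool.Agent.H63.Bulk.Upper
import Pool.Agent.H63.Bulk.Lower
import Pool.Agent.H63.Bulk.Law
import Pool.Agent.H63.Bulk.Mc
import Pool.Agent.H51.TA.Asym
import Pool.Agent.H51.TA.Form

/-!
# The one-arm exponent of critical bond percolation on `ℤ²`
-/

set_option autoImplicit false

open MeasureTheory Filter Topology

namespace Pool.Agent.H63.Bulk

open Pool.Agent.H65.Perc
open Pool.Agent.H51.TA (toPat toPat_t mc loopsAround_finite)

/-- the probability that the origin winds around the bi-infinite cylinder, up to constants -/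
theorem cyl_bounds : ∃ c C : ℝ, 0 < c ∧ 0 < C ∧ ∀ n : ℕ, 1 ≤ n →
    c * (n : ℝ) ^ (-(5 / 48) : ℝ) ≤ ((bulkMeasure n) {ω | BWinds n ω}).toReal ∧
      ((bulkMeasure n) {ω | BWinds n ω}).toReal ≤ C * (n : ℝ) ^ (-(5 / 48) : ℝ) := by
  classical
  obtain ⟨c, C, hc, hC, h⟩ := Pool.Agent.H51.TA.one_arm
  refine ⟨c, C, hc, hC, fun n hn => ?_⟩
  haveI : NeZero n := ⟨by omega⟩
  obtain ⟨Ψ, hlim, -⟩ := exists_Psi n
  have h1 := h n Ψ hlim ⟨cap n 0, planar_cap n 0⟩ 0
  have h2 := prob_bwinds n hlim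
  have e : ∀ z : PX (2 * n), (toPat z).t = cov z.1 := fun z => toPat_t z
  have h3 : (fun x : PX (2 * n) => Ψ (fun y : PX (2 * n) =>
      if NoLoop (cov x.1) (cov y.1) 0 then (1 : ℝ) else 0)) =
      (fun x : PX (2 * n) => Ψ (fun y : PX (2 * n) =>
        (0 : ℝ) ^ mc (toPat x).t (toPat y).t 0)) := by
    funext x
    congr 1
    funext y
    rw [zero_pow_mc (toPat x).inv (toPat y).inv 0
      (loopsAround_finite (toPat x) (toPat y) (by omega) 0), e, e]
  rw [h3] at h2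
  rw [h2]
  exact h1

/-- **The one-arm exponent `5/48`** -/
theorem one_arm_plane : ∃ c C : ℝ, 0 < c ∧ 0 < C ∧ ∀ n : ℕ, 1 ≤ n →
    c * (n : ℝ) ^ (-(5 / 48) : ℝ) ≤ (planeMeasure {ω | OneArm n ω}).toReal ∧
      (planeMeasure {ω | OneArm n ω}).toReal ≤ C * (n : ℝ) ^ (-(5 / 48) : ℝ) := by
  obtain ⟨c, C, hc, hC, h⟩ := cyl_bounds
  obtain ⟨K, hK, hlow⟩ := oneArm_le_bwinds
  refine ⟨c * (3 : ℝ) ^ (-(5 / 48) : ℝ), K * C, by positivity, by positivity, fun n hn => ⟨?_, ?_⟩⟩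
  · have h1 := (h (2 * n + 1) (by omega)).1
    have h2 := bwinds_le_oneArm (2 * n + 1) n (by omega)
    refine le_trans ?_ (h1.trans h2)
    rw [mul_assoc, ← Real.mul_rpow (by norm_num) (Nat.cast_nonneg n)]
    refine mul_le_mul_of_nonneg_left ?_ hc.le
    refine Real.rpow_le_rpow_of_nonpos (by positivity) ?_ (by norm_num)
    push_cast
    have : (1 : ℝ) ≤ n := by exact_mod_cast hn
    linarith
  · calc (planeMeasure {ω | OneArm n ω}).toReal
        ≤ K * ((bulkMeasure n) {ω | BWinds n ω}).toReal := hlow n hn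
      _ ≤ K * (C * (n : ℝ) ^ (-(5 / 48) : ℝ)) :=
          mul_le_mul_of_nonneg_left (h n hn).2 hK.le
      _ = K * C * (n : ℝ) ^ (-(5 / 48) : ℝ) := by ring

end Pool.Agent.H63.Bulk
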